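import Mathlib

/-!
# Bound for `L(s, χ)` near the line `Re s = 1` by partial summation
-/

set_option autoImplicit false

namespace Pool.Agent.Work.MP_b0c12c_nt_helper70

open Complex Filter Topology MeasureTheory Finset Asymptotics

section

variable {q : ℕ} [NeZero q]

/-- a full period -/
lemma sum_period (χ : DirichletCharacter ℂ q) (hχ : χ ≠ 1) (a : ℕ) :
    ∑ k ∈ range q, χ ((a + k : ℕ) : ZMod q) = 0 := by
  rw [← MulChar.sum_eq_zero_of_ne_one hχ]
  refine Finset.sum_nbij' (fun k => ((a + k : ℕ) : ZMod q)) (fun x => (x - (a : ZMod q)).val)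
    (fun _ _ => Finset.mem_univ _) (fun x _ => ?_) (fun k hk => ?_) (fun x _ => ?_)
    (fun _ _ => rfl)
  · exact mem_range.2 (ZMod.val_lt _)
  · rw [Nat.cast_add, add_sub_cancel_left]
    exact ZMod.val_natCast_of_lt (mem_range.1 hk)
  · rw [Nat.cast_add, ZMod.natCast_zmod_val, add_sub_cancel]

lemma norm_sum_range_le (χ : DirichletCharacter ℂ q) (hχ : χ ≠ 1) :
    ∀ L a : ℕ, ‖∑ k ∈ range L, χ ((a + k : ℕ) : ZMod q)‖ ≤ q := by
  intro L
  induction L using Nat.strong_induction_on with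
  | _ L ih =>
    intro a
    rcases Nat.lt_or_ge L q with h | h
    · refine (norm_sum_le _ _).trans ?_
      calc ∑ k ∈ range L, ‖χ ((a + k : ℕ) : ZMod q)‖ ≤ ∑ _k ∈ range L, (1 : ℝ) :=
            Finset.sum_le_sum fun k _ => χ.norm_le_one _
        _ = L := by simp
        _ ≤ q := by exact_mod_cast h.le
    · obtain ⟨j, rfl⟩ := Nat.exists_eq_add_of_le h
      have hq : 0 < q := Nat.pos_of_ne_zero (NeZero.ne q)
      rw [Finset.sum_range_add, sum_period χ hχ, zero_add]
      have := ih j (by omega) (a + q)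
      refine le_of_eq_of_le ?_ this
      congr 1
      refine Finset.sum_congr rfl fun k _ => ?_
      rw [add_assoc]

/-- the tail of the character -/
noncomputable def fN (χ : DirichletCharacter ℂ q) (N : ℕ) (n : ℕ) : ℂ :=
  if N < n then χ (n : ZMod q) else 0

omit [NeZero q] in
lemma sum_fN (χ : DirichletCharacter ℂ q) (N n : ℕ) :
    ∑ k ∈ Icc 1 n, fN χ N k = ∑ k ∈ range (n - N), χ ((N + 1 + k : ℕ) : ZMod q) := by
  unfold fN
  rw [← Finset.sum_filter]
  have : (Icc 1 n).filter (fun k => N < k) = Ico (N + 1) (n + 1) := by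
    ext k
    simp only [mem_filter, mem_Icc, mem_Ico]
    omega
  rw [this, Finset.sum_Ico_eq_sum_range]
  have h2 : n + 1 - (N + 1) = n - N := by omega
  rw [h2]

lemma norm_sum_fN (χ : DirichletCharacter ℂ q) (hχ : χ ≠ 1) (N n : ℕ) :
    ‖∑ k ∈ Icc 1 n, fN χ N k‖ ≤ q := by
  rw [sum_fN]
  exact norm_sum_range_le χ hχ _ _

omit [NeZero q] in
lemma sum_fN_zero (χ : DirichletCharacter ℂ q) {N n : ℕ} (h : n ≤ N) :
    ∑ k ∈ Icc 1 n, fN χ N k = 0 := by
  rw [sum_fN, Nat.sub_eq_zero_of_le h, range_zero, sum_empty]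

/-- summatory function -/
noncomputable def SF (χ : DirichletCharacter ℂ q) (N : ℕ) (t : ℝ) : ℂ :=
  ∑ k ∈ Icc 1 ⌊t⌋₊, fN χ N k

omit [NeZero q] in
lemma SF_zero (χ : DirichletCharacter ℂ q) {N : ℕ} {t : ℝ} (h : t ≤ N) : SF χ N t = 0 := by
  unfold SF
  exact sum_fN_zero χ (Nat.floor_le_of_le h)

lemma norm_SF (χ : DirichletCharacter ℂ q) (hχ : χ ≠ 1) (N : ℕ) (t : ℝ) : ‖SF χ N t‖ ≤ q :=
  norm_sum_fN χ hχ N _

omit [NeZero q] in
lemma measurable_SF (χ : DirichletCharacter ℂ q) (N : ℕ) : Measurable (SF χ N) := by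
  have h1 : Measurable (fun n : ℕ => ∑ k ∈ Icc 1 n, fN χ N k) := measurable_from_nat
  exact h1.comp Nat.measurable_floor

lemma mellin_SF_differentiableAt (χ : DirichletCharacter ℂ q) (hχ : χ ≠ 1) {N : ℕ} (hN : 1 ≤ N)
    {s : ℂ} (hs : 0 < s.re) : DifferentiableAt ℂ (fun s => mellin (SF χ N) (-s)) s := by
  have hN' : (1 : ℝ) ≤ N := by exact_mod_cast hN
  have h1 : DifferentiableAt ℂ (mellin (SF χ N)) (-s) := by
    refine mellin_differentiableAt_of_isBigO_rpow (a := 0) (b := (-s).re - 1) ?_ ?_ ?_ ?_ ?_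
    · have h2 : LocallyIntegrable (SF χ N) volume := by
        refine (locallyIntegrable_const (q : ℝ)).mono (measurable_SF χ N).aestronglyMeasurable ?_
        refine Eventually.of_forall fun t => ?_
        refine (norm_SF χ hχ N t).trans ?_
        rw [Real.norm_eq_abs]
        exact le_abs_self _
      exact h2.locallyIntegrableOn _
    · refine IsBigO.of_bound (q : ℝ) (Eventually.of_forall fun t => ?_)
      rw [neg_zero, Real.rpow_zero, norm_one, mul_one]
      exact norm_SF χ hχ N t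
    · rw [neg_re]; linarith
    · refine IsBigO.of_bound 0 ?_
      have h3 : ∀ᶠ t in 𝓝[>] (0 : ℝ), t < 1 :=
        nhdsWithin_le_nhds (eventually_lt_nhds (by norm_num))
      filter_upwards [h3] with t ht
      rw [SF_zero χ (by linarith)]
      simp
    · linarith
  exact h1.comp s differentiable_neg.differentiableAt

omit [NeZero q] in
lemma mellin_SF_eq (χ : DirichletCharacter ℂ q) {N : ℕ} (s : ℂ) {c : ℝ} (hc : 0 ≤ c)
    (hcN : c ≤ N) :
    mellin (SF χ N) (-s) = ∫ t in Set.Ioi c, SF χ N t * (t : ℂ) ^ (-(s + 1)) := by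
  unfold mellin
  rw [setIntegral_eq_of_subset_of_forall_sdiff_eq_zero measurableSet_Ioi
    (Set.Ioi_subset_Ioi hc) (fun t ht => ?_)]
  · refine setIntegral_congr_fun measurableSet_Ioi fun t _ => ?_
    simp only [smul_eq_mul]
    rw [mul_comm]
    congr 2
    ring
  · have ht' : t ≤ c := not_lt.1 ht.2
    rw [SF_zero χ (ht'.trans hcN), smul_zero]

lemma norm_mellin_SF (χ : DirichletCharacter ℂ q) (hχ : χ ≠ 1) {N : ℕ} (hN : 1 ≤ N)
    {s : ℂ} (hs : 0 < s.re) :
    ‖mellin (SF χ N) (-s)‖ ≤ q * (N : ℝ) ^ (-s.re) / s.re := by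
  have hN' : (0 : ℝ) < N := by exact_mod_cast hN
  rw [mellin_SF_eq χ s hN'.le le_rfl]
  have hlt : -s.re - 1 < -1 := by linarith
  have hint : IntegrableOn (fun t : ℝ => (q : ℝ) * t ^ (-s.re - 1)) (Set.Ioi (N : ℝ)) :=
    (integrableOn_Ioi_rpow_of_lt hlt hN').const_mul _
  have h1 : ‖∫ t in Set.Ioi (N : ℝ), SF χ N t * (t : ℂ) ^ (-(s + 1))‖ ≤
      ∫ t in Set.Ioi (N : ℝ), (q : ℝ) * t ^ (-s.re - 1) := by
    refine norm_integral_le_of_norm_le hint ?_
    refine (ae_restrict_mem measurableSet_Ioi).mono fun t ht => ?_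
    have ht0 : (0 : ℝ) < t := hN'.trans ht
    rw [norm_mul, norm_cpow_eq_rpow_re_of_pos ht0]
    have e : (-(s + 1)).re = -s.re - 1 := by simp; ring
    rw [e]
    exact mul_le_mul_of_nonneg_right (norm_SF χ hχ N t) (Real.rpow_nonneg ht0.le _)
  refine h1.trans (le_of_eq ?_)
  rw [integral_const_mul, integral_Ioi_rpow_of_lt hlt hN']
  have e : -s.re - 1 + 1 = -s.re := by ring
  rw [e]
  field_simp

omit [NeZero q] in
lemma LSeries_split (χ : DirichletCharacter ℂ q) (N : ℕ) {s : ℂ} (hs : 1 < s.re) :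
    LSeriesSummable (fN χ N) s ∧
    LSeries (fun n => χ (n : ZMod q)) s =
      ∑ n ∈ Icc 1 N, LSeries.term (fun n => χ (n : ZMod q)) s n + LSeries (fN χ N) s := by
  have hsum : LSeriesSummable (fun n => χ (n : ZMod q)) s :=
    DirichletCharacter.LSeriesSummable_of_one_lt_re χ hs
  have hN : LSeriesSummable (fN χ N) s := by
    refine hsum.congr' s ?_
    filter_upwards [eventually_gt_atTop N] with n hn
    unfold fN
    rw [if_pos hn]
  refine ⟨hN, ?_⟩
  have h1 : HasSum (fun n => if n ∈ Icc 1 N then LSeries.term (fun n => χ (n : ZMod q)) s n else 0)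
      (∑ n ∈ Icc 1 N, LSeries.term (fun n => χ (n : ZMod q)) s n) := by
    have h0 : HasSum (fun n => if n ∈ Icc 1 N then
        LSeries.term (fun n => χ (n : ZMod q)) s n else 0) (∑ n ∈ Icc 1 N, if n ∈ Icc 1 N then
        LSeries.term (fun n => χ (n : ZMod q)) s n else 0) :=
      hasSum_sum_of_ne_finset_zero (fun b hb => if_neg hb)
    rwa [Finset.sum_congr rfl (fun n hn => if_pos hn)] at h0
  have h2 := h1.add hN.hasSum
  have h3 : (fun n => (if n ∈ Icc 1 N then LSeries.term (fun n => χ (n : ZMod q)) s n else 0) +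
      LSeries.term (fN χ N) s n) = LSeries.term (fun n => χ (n : ZMod q)) s := by
    funext n
    rcases Nat.eq_zero_or_pos n with rfl | hn
    · simp
    · rw [LSeries.term_of_ne_zero hn.ne', LSeries.term_of_ne_zero hn.ne']
      unfold fN
      by_cases h : n ∈ Icc 1 N
      · rw [if_pos h, if_neg (by rw [mem_Icc] at h; omega)]
        simp
      · rw [if_neg h, if_pos (by rw [mem_Icc] at h; omega), zero_add]
  rw [h3] at h2
  exact h2.tsum_eq

lemma LFunction_eq (χ : DirichletCharacter ℂ q) (hχ : χ ≠ 1) {N : ℕ} (hN : 1 ≤ N)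
    {s : ℂ} (hs : 0 < s.re) :
    χ.LFunction s = ∑ n ∈ Icc 1 N, χ (n : ZMod q) * (n : ℂ) ^ (-s) +
      s * mellin (SF χ N) (-s) := by
  have hN' : (1 : ℝ) ≤ N := by exact_mod_cast hN
  set U : Set ℂ := {z : ℂ | 0 < z.re} with hU
  have hUo : IsOpen U := isOpen_lt continuous_const Complex.continuous_re
  have hUc : IsPreconnected U := (convex_halfSpace_re_gt 0).isPreconnected
  have hf : AnalyticOnNhd ℂ χ.LFunction U :=
    (DirichletCharacter.differentiable_LFunction hχ).differentiableOn.analyticOnNhd hUo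
  have hg : AnalyticOnNhd ℂ (fun s => ∑ n ∈ Icc 1 N, χ (n : ZMod q) * (n : ℂ) ^ (-s) +
      s * mellin (SF χ N) (-s)) U := by
    refine DifferentiableOn.analyticOnNhd ?_ hUo
    intro z hz
    refine DifferentiableAt.differentiableWithinAt ?_
    refine DifferentiableAt.add ?_ (differentiableAt_id.mul (mellin_SF_differentiableAt χ hχ hN hz))
    refine DifferentiableAt.fun_sum fun n hn => ?_
    refine DifferentiableAt.const_mul ?_ _
    refine DifferentiableAt.const_cpow differentiable_neg.differentiableAt (Or.inl ?_)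
    rw [mem_Icc] at hn
    exact_mod_cast (by omega : n ≠ 0)
  have h2U : (2 : ℂ) ∈ U := by
    show (0 : ℝ) < (2 : ℂ).re
    norm_num
  refine hf.eqOn_of_preconnected_of_eventuallyEq hg hUc h2U ?_ hs
  have h2 : ∀ᶠ z in 𝓝 (2 : ℂ), 1 < z.re := by
    have : IsOpen {z : ℂ | 1 < z.re} := isOpen_lt continuous_const Complex.continuous_re
    refine this.mem_nhds ?_
    show (1 : ℝ) < (2 : ℂ).re
    norm_num
  filter_upwards [h2] with z hz
  rw [DirichletCharacter.LFunction_eq_LSeries χ hz]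
  obtain ⟨hs1, hs2⟩ := LSeries_split χ N hz
  rw [hs2]
  congr 1
  · refine Finset.sum_congr rfl fun n hn => ?_
    rw [mem_Icc] at hn
    rw [LSeries.term_of_ne_zero (by omega), cpow_neg, div_eq_mul_inv]
  · rw [mellin_SF_eq χ z zero_le_one hN']
    refine LSeries_eq_mul_integral (fN χ N) le_rfl (by linarith) hs1 ?_
    refine IsBigO.of_bound (q : ℝ) (Eventually.of_forall fun n => ?_)
    rw [Real.rpow_zero, norm_one, mul_one]
    exact norm_sum_fN χ hχ N n

/-- **The basic bound** for `L(s,χ)` in the half plane `Re s > 0`. -/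
theorem norm_LFunction_le (χ : DirichletCharacter ℂ q) (hχ : χ ≠ 1) {N : ℕ} (hN : 1 ≤ N)
    {s : ℂ} (hs : 0 < s.re) :
    ‖χ.LFunction s‖ ≤ ∑ n ∈ Icc 1 N, (n : ℝ) ^ (-s.re) +
      ‖s‖ * (q * (N : ℝ) ^ (-s.re) / s.re) := by
  rw [LFunction_eq χ hχ hN hs]
  refine (norm_add_le _ _).trans (add_le_add ?_ ?_)
  · refine (norm_sum_le _ _).trans (Finset.sum_le_sum fun n hn => ?_)
    rw [mem_Icc] at hn
    rw [norm_mul, norm_natCast_cpow_of_pos (by omega), neg_re]
    have := χ.norm_le_one (n : ZMod q)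
    have h2 : 0 ≤ (n : ℝ) ^ (-s.re) := Real.rpow_nonneg (Nat.cast_nonneg n) _
    nlinarith
  · rw [norm_mul]
    exact mul_le_mul_of_nonneg_left (norm_mellin_SF χ hχ hN hs) (norm_nonneg _)

end

end Pool.Agent.Work.MP_b0c12c_nt_helper70
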