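import Pool.Agent.Work.MP_b0c12c_nt_helper70.LocalLemma
import Pool.Agent.Work.MP_b0c12c_nt_helper70.LBound
import Pool.Agent.Work.MP_852da8_nt.ZetaApprox

/-!
# Upper and lower bounds near the line `Re s = 1`
-/

set_option autoImplicit false

namespace Pool.Agent.Work.MP_b0c12c_nt_helper70

open Complex Filter Topology MeasureTheory Finset Metric
open Pool.Agent.Work.MP_852da8_nt

/-! ### elementary sums -/

lemma pow_neg_le {x σ M c : ℝ} (hM : 0 < M) (hx : 1 ≤ x) (hxc : Real.log x ≤ c * M)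
    (hσ : 1 - 2 / M ≤ σ) : x ^ (-σ) ≤ Real.exp (2 * c) * (1 / x) := by
  have hx0 : 0 < x := by linarith
  have h1 : (1 / x) = Real.exp (-Real.log x) := by
    rw [Real.exp_neg, Real.exp_log hx0, one_div]
  rw [Real.rpow_def_of_pos hx0, h1, ← Real.exp_add]
  apply Real.exp_le_exp.2
  have h2 : 0 ≤ Real.log x := Real.log_nonneg hx
  have h3 : (2 / M) * Real.log x ≤ 2 * c := by
    have : (2 / M) * Real.log x ≤ (2 / M) * (c * M) :=
      mul_le_mul_of_nonneg_left hxc (by positivity)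
    refine this.trans (le_of_eq ?_)
    field_simp
  nlinarith

lemma sum_pow_neg_le {P : ℕ} {σ M c : ℝ} (hM : 0 < M) (hP : 1 ≤ P)
    (hPc : Real.log P ≤ c * M) (hσ : 1 - 2 / M ≤ σ) :
    ∑ n ∈ range P, ((n : ℝ) + 1) ^ (-σ) ≤ Real.exp (2 * c) * (1 + c * M) := by
  have hP0 : (0 : ℝ) < P := by exact_mod_cast hP
  have h1 : ∀ n ∈ range P, ((n : ℝ) + 1) ^ (-σ) ≤ Real.exp (2 * c) * ((n : ℝ) + 1)⁻¹ := by
    intro n hn
    rw [mem_range] at hn
    have hn0 : (0 : ℝ) ≤ n := Nat.cast_nonneg n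
    have hn1 : (n : ℝ) + 1 ≤ P := by exact_mod_cast hn
    have := pow_neg_le (x := (n : ℝ) + 1) hM (by linarith)
      ((Real.log_le_log (by linarith) hn1).trans hPc) hσ
    rwa [one_div] at this
  refine (Finset.sum_le_sum h1).trans ?_
  rw [← Finset.mul_sum]
  refine mul_le_mul_of_nonneg_left ?_ (Real.exp_pos _).le
  have h2 := harmonic_le_one_add_log P
  unfold harmonic at h2
  push_cast at h2
  linarith

lemma sum_Icc_eq_range (P : ℕ) (g : ℕ → ℝ) : ∑ n ∈ Icc 1 P, g n = ∑ n ∈ range P, g (n + 1) := by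
  induction P with
  | zero => simp
  | succ P ih => rw [Finset.sum_range_succ, Finset.sum_Icc_succ_top (by omega), ih]

lemma log_ceil {A : ℝ} (hA : 1 ≤ A) : Real.log ⌈A⌉₊ ≤ Real.log A + Real.log 2 := by
  have h0 : (0 : ℝ) < ⌈A⌉₊ := by
    have := Nat.le_ceil A
    linarith
  rw [← Real.log_mul (by linarith) (by norm_num)]
  apply Real.log_le_log h0
  have := Nat.ceil_lt_add_one (by linarith : 0 ≤ A)
  linarith

/-! ### upper bounds -/

lemma norm_L_le {q : ℕ} [NeZero q] {T : ℝ} (hT : 1 ≤ T) (hM : 4 ≤ Real.log (q * (T + 2)))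
    (χ : DirichletCharacter ℂ q) (hχ : χ ≠ 1) {s : ℂ}
    (h1 : 1 - 2 / Real.log (q * (T + 2)) ≤ s.re) (h2 : s.re ≤ 2) (h3 : |s.im| ≤ 2 * T + 2) :
    ‖χ.LFunction s‖ ≤ 4 * Real.exp 4 * Real.log (q * (T + 2)) := by
  set A : ℝ := q * (T + 2) with hA
  set M := Real.log A with hMd
  have hq : (1 : ℝ) ≤ q := by exact_mod_cast Nat.one_le_iff_ne_zero.2 (NeZero.ne q)
  have hA1 : 3 ≤ A := by rw [hA]; nlinarith
  have hM0 : 0 < M := by linarith
  have hσ : 1 / 2 ≤ s.re := by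
    have : 2 / M ≤ 1 / 2 := by rw [div_le_iff₀ hM0]; linarith
    linarith
  have hN : 1 ≤ ⌈A⌉₊ := Nat.one_le_ceil_iff.2 (by linarith)
  have hNA : A ≤ ⌈A⌉₊ := Nat.le_ceil A
  have hN0 : (0 : ℝ) < ⌈A⌉₊ := by linarith
  have hlog : Real.log ⌈A⌉₊ ≤ 2 * M := by
    have := log_ceil (by linarith : 1 ≤ A)
    have h2 : Real.log 2 ≤ 1 := by
      have := Real.log_le_sub_one_of_pos (by norm_num : (0 : ℝ) < 2)
      linarith
    linarith
  have key := norm_LFunction_le χ hχ hN (s := s) (by linarith)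
  have hs1 : ∑ n ∈ Icc 1 ⌈A⌉₊, (n : ℝ) ^ (-s.re) ≤ Real.exp 4 * (1 + 2 * M) := by
    have := sum_pow_neg_le hM0 hN hlog h1
    rw [sum_Icc_eq_range ⌈A⌉₊ (fun n => (n : ℝ) ^ (-s.re))]
    push_cast
    have e : (2 : ℝ) * 2 = 4 := by norm_num
    rwa [e] at this
  have hs2 : (⌈A⌉₊ : ℝ) ^ (-s.re) ≤ Real.exp 4 / A := by
    have := pow_neg_le (x := (⌈A⌉₊ : ℝ)) hM0 (by exact_mod_cast hN) hlog h1
    have e : (2 : ℝ) * 2 = 4 := by norm_num
    rw [e] at this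
    refine this.trans ?_
    rw [div_eq_mul_one_div (Real.exp 4) A]
    refine mul_le_mul_of_nonneg_left ?_ (Real.exp_pos _).le
    exact one_div_le_one_div_of_le (by linarith) hNA
  have hs3 : ‖s‖ ≤ 2 * (T + 2) := by
    have := Complex.norm_le_abs_re_add_abs_im s
    rw [abs_of_nonneg (by linarith : 0 ≤ s.re)] at this
    linarith
  have hs4 : ‖s‖ * (q * (⌈A⌉₊ : ℝ) ^ (-s.re) / s.re) ≤ 4 * Real.exp 4 := by
    have h5 : q * (⌈A⌉₊ : ℝ) ^ (-s.re) ≤ Real.exp 4 / (T + 2) := by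
      calc q * (⌈A⌉₊ : ℝ) ^ (-s.re) ≤ q * (Real.exp 4 / A) :=
            mul_le_mul_of_nonneg_left hs2 (by linarith)
        _ = Real.exp 4 / (T + 2) := by
            rw [hA]
            field_simp
    have h6 : q * (⌈A⌉₊ : ℝ) ^ (-s.re) / s.re ≤ Real.exp 4 / (T + 2) * 2 := by
      rw [div_le_iff₀ (by linarith)]
      have h7 : 0 ≤ Real.exp 4 / (T + 2) := by positivity
      nlinarith
    calc ‖s‖ * (q * (⌈A⌉₊ : ℝ) ^ (-s.re) / s.re)
        ≤ (2 * (T + 2)) * (Real.exp 4 / (T + 2) * 2) :=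
          mul_le_mul hs3 h6 (by positivity) (by positivity)
      _ = 4 * Real.exp 4 := by field_simp; ring
  have hE := Real.exp_pos 4
  nlinarith

lemma norm_zeta1_le {q : ℕ} [NeZero q] {T : ℝ} (hT : 1 ≤ T) (hM : 4 ≤ Real.log (q * (T + 2)))
    {s : ℂ} (h1 : 1 - 2 / Real.log (q * (T + 2)) ≤ s.re) (h2 : s.re ≤ 2)
    (h3 : |s.im| ≤ 2 * T + 2) :
    ‖riemannZeta₁ s‖ ≤ 8 * Real.exp 8 * Real.log (q * (T + 2)) * (‖s - 1‖ + 1) := by
  set A : ℝ := q * (T + 2) with hA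
  set M := Real.log A with hMd
  have hq : (1 : ℝ) ≤ q := by exact_mod_cast Nat.one_le_iff_ne_zero.2 (NeZero.ne q)
  have hA1 : 3 ≤ A := by rw [hA]; nlinarith
  have hAT : T + 2 ≤ A := by rw [hA]; nlinarith
  have hM0 : 0 < M := by linarith
  have hσ : 1 / 2 ≤ s.re := by
    have : 2 / M ≤ 1 / 2 := by rw [div_le_iff₀ hM0]; linarith
    linarith
  have hN : 1 ≤ ⌈A⌉₊ := Nat.one_le_ceil_iff.2 (by linarith)
  have hNA : A ≤ ⌈A⌉₊ := Nat.le_ceil A
  have hN0 : (0 : ℝ) < ⌈A⌉₊ := by linarith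
  have hlog : Real.log ⌈A⌉₊ ≤ 2 * M := by
    have := log_ceil (by linarith : 1 ≤ A)
    have h2 : Real.log 2 ≤ 1 := by
      have := Real.log_le_sub_one_of_pos (by norm_num : (0 : ℝ) < 2)
      linarith
    linarith
  obtain ⟨N, hNe⟩ : ∃ N : ℕ, N + 1 = ⌈A⌉₊ ^ 2 :=
    ⟨⌈A⌉₊ ^ 2 - 1, by have : 1 ≤ ⌈A⌉₊ ^ 2 := Nat.one_le_pow _ _ hN; omega⟩
  have hPc : ((N + 1 : ℕ) : ℝ) = (⌈A⌉₊ : ℝ) ^ 2 := by rw [hNe]; push_cast; ring
  have hlogP : Real.log ((N + 1 : ℕ) : ℝ) ≤ 4 * M := by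
    rw [hPc, Real.log_pow]
    push_cast
    linarith
  have e8 : (2 : ℝ) * 4 = 8 := by norm_num
  have hs0 : 0 < s.re := by linarith
  rw [zeta_one_formula hs0 N]
  have b1 : ‖∑ n ∈ range (N + 1), ((n : ℂ) + 1) ^ (-s)‖ ≤ Real.exp 8 * (1 + 4 * M) := by
    have := sum_pow_neg_le (P := N + 1) hM0 (by omega) hlogP h1
    rw [e8] at this
    refine (norm_sum_le _ _).trans (le_trans (Finset.sum_le_sum fun n _ => ?_) this)
    have e : ((n : ℂ) + 1) = ((n + 1 : ℕ) : ℂ) := by push_cast; ring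
    rw [e, norm_natCast_cpow_of_pos (by omega), neg_re]
    push_cast
    exact le_rfl
  have b2 : ‖((N + 1 : ℕ) : ℂ) ^ (1 - s)‖ ≤ Real.exp 8 := by
    rw [norm_natCast_cpow_of_pos (by omega)]
    have hP1 : (1 : ℝ) ≤ ((N + 1 : ℕ) : ℝ) := by exact_mod_cast (by omega : 1 ≤ N + 1)
    have hP0 : (0 : ℝ) < ((N + 1 : ℕ) : ℝ) := by linarith
    have := pow_neg_le (x := ((N + 1 : ℕ) : ℝ)) hM0 hP1 hlogP h1
    rw [e8] at this
    rw [sub_re, one_re, sub_eq_add_neg, Real.rpow_add hP0, Real.rpow_one]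
    calc ((N + 1 : ℕ) : ℝ) * ((N + 1 : ℕ) : ℝ) ^ (-s.re)
        ≤ ((N + 1 : ℕ) : ℝ) * (Real.exp 8 * (1 / ((N + 1 : ℕ) : ℝ))) :=
          mul_le_mul_of_nonneg_left this hP0.le
      _ = Real.exp 8 := by field_simp
  have b3 : ‖∑' n : ℕ, defect (N + 1 + n) s‖ ≤ 8 * ‖s - 1‖ := by
    have hnorm : Summable (fun n : ℕ => ‖defect (N + 1 + n) s‖) := (summable_defect hs0 N).norm
    have hsum : Summable (fun n : ℕ => ((N + 1 + n : ℕ) : ℝ) ^ (-(3 / 2) : ℝ)) := by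
      have h1 : Summable (fun n : ℕ => (n : ℝ) ^ (-(3 / 2) : ℝ)) :=
        Real.summable_nat_rpow.mpr (by norm_num)
      have h2 := (summable_nat_add_iff (N + 1)).mpr h1
      refine h2.congr ?_
      intro n
      rw [add_comm n (N + 1)]
    have h4 : ‖∑' n : ℕ, defect (N + 1 + n) s‖ ≤
        ‖s - 1‖ * (‖s‖ * (4 * ((N + 1 : ℕ) : ℝ) ^ (-(1 / 2) : ℝ))) := by
      refine le_trans (norm_tsum_le_tsum_norm hnorm) ?_
      refine le_trans (Summable.tsum_le_tsum (g := fun n : ℕ =>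
        ‖s - 1‖ * (‖s‖ * ((N + 1 + n : ℕ) : ℝ) ^ (-(3 / 2) : ℝ))) ?_ hnorm ?_) ?_
      · intro n
        refine (norm_defect_le (n := N + 1 + n) (by omega) hs0).trans ?_
        refine mul_le_mul_of_nonneg_left ?_ (norm_nonneg _)
        refine mul_le_mul_of_nonneg_left ?_ (norm_nonneg _)
        refine Real.rpow_le_rpow_of_exponent_le ?_ (by linarith)
        exact_mod_cast (by omega : 1 ≤ N + 1 + n)
      · exact (hsum.mul_left _).mul_left _
      · rw [tsum_mul_left, tsum_mul_left]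
        exact mul_le_mul_of_nonneg_left (mul_le_mul_of_nonneg_left (tsum_rpow_le N)
          (norm_nonneg _)) (norm_nonneg _)
    have h5 : ((N + 1 : ℕ) : ℝ) ^ (-(1 / 2) : ℝ) = 1 / ⌈A⌉₊ := by
      rw [hPc, ← Real.rpow_natCast, ← Real.rpow_mul hN0.le]
      norm_num
      rw [Real.rpow_neg_one]
    rw [h5] at h4
    have hs3 : ‖s‖ ≤ 2 * (T + 2) := by
      have := Complex.norm_le_abs_re_add_abs_im s
      rw [abs_of_nonneg (by linarith : 0 ≤ s.re)] at this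
      linarith
    have h6 : ‖s‖ * (4 * (1 / (⌈A⌉₊ : ℝ))) ≤ 8 := by
      have h7 : ‖s‖ ≤ 2 * (⌈A⌉₊ : ℝ) := by linarith
      calc ‖s‖ * (4 * (1 / (⌈A⌉₊ : ℝ))) ≤ (2 * (⌈A⌉₊ : ℝ)) * (4 * (1 / (⌈A⌉₊ : ℝ))) :=
            mul_le_mul_of_nonneg_right h7 (by positivity)
        _ = 8 := by field_simp; norm_num
    calc _ ≤ _ := h4
      _ ≤ ‖s - 1‖ * 8 := mul_le_mul_of_nonneg_left h6 (norm_nonneg _)
      _ = _ := by ring
  have hE := Real.add_one_le_exp (8 : ℝ)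
  have hn := norm_nonneg (s - 1)
  have tri : ‖(s - 1) * ∑ n ∈ range (N + 1), ((n : ℂ) + 1) ^ (-s)
        + ((N + 1 : ℕ) : ℂ) ^ (1 - s) + ∑' n : ℕ, defect (N + 1 + n) s‖ ≤
      ‖s - 1‖ * (Real.exp 8 * (1 + 4 * M)) + Real.exp 8 + 8 * ‖s - 1‖ := by
    refine (norm_add_le _ _).trans (add_le_add ((norm_add_le _ _).trans (add_le_add ?_ b2)) b3)
    rw [norm_mul]
    exact mul_le_mul_of_nonneg_left b1 hn
  refine tri.trans ?_
  have h9 : Real.exp 8 * (1 + 4 * M) + 8 ≤ 8 * Real.exp 8 * M := by nlinarith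
  have h10 : Real.exp 8 ≤ 8 * Real.exp 8 * M := by nlinarith
  nlinarith

/-! ### lower bounds -/

theorem rpow_step {b : ℝ} (hb : 0 < b) {n : ℕ} (hn : 1 ≤ n) :
    ((n : ℝ) + 1) ^ (-(1 + b)) ≤ (n : ℝ) ^ (-b) / b - ((n : ℝ) + 1) ^ (-b) / b := by
  have hn0 : (0 : ℝ) < n := by exact_mod_cast hn
  have hn1 : (0 : ℝ) < (n : ℝ) + 1 := by linarith
  have h1 : (n : ℝ) ^ (-b) = ((n : ℝ) + 1) ^ (-b) * (((n : ℝ) + 1) / n) ^ b := by
    rw [Real.div_rpow hn1.le hn0.le, Real.rpow_neg hn0.le, Real.rpow_neg hn1.le]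
    field_simp
  have h2 : 1 + b / ((n : ℝ) + 1) ≤ (((n : ℝ) + 1) / n) ^ b := by
    have hpos : (0 : ℝ) < ((n : ℝ) + 1) / n := by positivity
    rw [Real.rpow_def_of_pos hpos]
    have h3 := Real.one_sub_inv_le_log_of_pos hpos
    have h4 : 1 - (((n : ℝ) + 1) / n)⁻¹ = 1 / ((n : ℝ) + 1) := by
      field_simp
      ring
    rw [h4] at h3
    have h5 := Real.add_one_le_exp (Real.log (((n : ℝ) + 1) / n) * b)
    have h6 : b / ((n : ℝ) + 1) ≤ Real.log (((n : ℝ) + 1) / n) * b := by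
      rw [div_eq_mul_one_div, mul_comm]
      exact mul_le_mul_of_nonneg_right h3 hb.le
    linarith
  have h7 : ((n : ℝ) + 1) ^ (-(1 + b)) = ((n : ℝ) + 1) ^ (-b) * ((n : ℝ) + 1)⁻¹ := by
    rw [show -(1 + b) = -b + -1 by ring, Real.rpow_add hn1, Real.rpow_neg_one]
  rw [h7, h1]
  have h8 : 0 < ((n : ℝ) + 1) ^ (-b) := Real.rpow_pos_of_pos hn1 _
  have h9 : ((n : ℝ) + 1) ^ (-b) * (1 + b / ((n : ℝ) + 1)) ≤
      ((n : ℝ) + 1) ^ (-b) * (((n : ℝ) + 1) / n) ^ b := mul_le_mul_of_nonneg_left h2 h8.le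
  rw [← sub_div, le_div_iff₀ hb]
  have h10 : ((n : ℝ) + 1) ^ (-b) * ((n : ℝ) + 1)⁻¹ * b =
    ((n : ℝ) + 1) ^ (-b) * (1 + b / ((n : ℝ) + 1)) - ((n : ℝ) + 1) ^ (-b) := by
    field_simp
    ring
  rw [h10]
  linarith

theorem sum_rpow_le {b : ℝ} (hb : 0 < b) (N : ℕ) :
    ∑ n ∈ range N, (n : ℝ) ^ (-(1 + b)) ≤ 1 + 1 / b := by
  have key : ∀ N : ℕ, 1 ≤ N → ∑ n ∈ range (N + 1), (n : ℝ) ^ (-(1 + b)) ≤
      1 + 1 / b - (N : ℝ) ^ (-b) / b := by
    intro N hN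
    induction N, hN using Nat.le_induction with
    | base =>
      rw [sum_range_succ, sum_range_one]
      have : ((0 : ℕ) : ℝ) ^ (-(1 + b)) = 0 := by
        rw [Nat.cast_zero]; exact Real.zero_rpow (by linarith)
      rw [this]
      simp
    | succ n hn ih =>
      rw [sum_range_succ]
      have := rpow_step hb hn
      push_cast
      linarith
  rcases Nat.lt_or_ge N 2 with h | h
  · interval_cases N
    · simp; positivity
    · rw [sum_range_one]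
      have : ((0 : ℕ) : ℝ) ^ (-(1 + b)) = 0 := by
        rw [Nat.cast_zero]; exact Real.zero_rpow (by linarith)
      rw [this]
      positivity
  · obtain ⟨m, rfl⟩ : ∃ m, N = m + 1 := ⟨N - 1, by omega⟩
    have h1 := key m (by omega)
    have : 0 ≤ (m : ℝ) ^ (-b) / b := by positivity
    linarith

/-- an L-series with coefficients bounded by one -/
lemma norm_LSeries_le {f : ℕ → ℂ} (hf : ∀ n, ‖f n‖ ≤ 1) {s : ℂ} (h1 : 1 < s.re)
    (h2 : s.re ≤ 2) : ‖LSeries f s‖ ≤ 2 / (s.re - 1) := by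
  have hb : 0 < s.re - 1 := by linarith
  have hterm : ∀ n : ℕ, ‖LSeries.term f s n‖ ≤ (n : ℝ) ^ (-(1 + (s.re - 1))) := by
    intro n
    rcases Nat.eq_zero_or_pos n with rfl | hn
    · rw [LSeries.term_zero, norm_zero, Nat.cast_zero, Real.zero_rpow (by linarith)]
    · rw [LSeries.term_of_ne_zero hn.ne', norm_div, norm_natCast_cpow_of_pos hn,
        show -(1 + (s.re - 1)) = -s.re by ring, Real.rpow_neg (Nat.cast_nonneg n),
        ← one_div]
      exact div_le_div_of_nonneg_right (hf n) (Real.rpow_nonneg (Nat.cast_nonneg n) _)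
  have hsum : Summable fun n : ℕ => (n : ℝ) ^ (-(1 + (s.re - 1))) :=
    Real.summable_nat_rpow.2 (by linarith)
  have h3 : ‖LSeries f s‖ ≤ ∑' n : ℕ, (n : ℝ) ^ (-(1 + (s.re - 1))) :=
    tsum_of_norm_bounded hsum.hasSum hterm
  refine h3.trans ?_
  have h4 : ∑' n : ℕ, (n : ℝ) ^ (-(1 + (s.re - 1))) ≤ 1 + 1 / (s.re - 1) :=
    hsum.tsum_le_of_sum_range_le fun N => sum_rpow_le hb N
  refine h4.trans ?_
  rw [le_div_iff₀ hb, add_mul, one_div, inv_mul_cancel₀ hb.ne']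
  linarith

lemma norm_moebius_le (n : ℕ) : ‖((ArithmeticFunction.moebius n : ℤ) : ℂ)‖ ≤ 1 := by
  rw [Complex.norm_intCast]
  exact_mod_cast ArithmeticFunction.abs_moebius_le_one

lemma le_norm_L {q : ℕ} [NeZero q] (χ : DirichletCharacter ℂ q) {s : ℂ} (h1 : 1 < s.re)
    (h2 : s.re ≤ 2) : (s.re - 1) / 2 ≤ ‖χ.LFunction s‖ := by
  rw [DirichletCharacter.LFunction_eq_LSeries χ h1]
  have h3 := DirichletCharacter.LSeries.mul_mu_eq_one χ h1
  have h4 : ‖LSeries ((fun n : ℕ => χ (n : ZMod q)) *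
      (fun n : ℕ => ((ArithmeticFunction.moebius n : ℤ) : ℂ))) s‖ ≤ 2 / (s.re - 1) := by
    apply norm_LSeries_le _ h1 h2
    intro n
    rw [Pi.mul_apply, norm_mul]
    exact mul_le_one₀ (χ.norm_le_one _) (norm_nonneg _) (norm_moebius_le n)
  have h5 := congrArg norm h3
  rw [norm_mul, norm_one] at h5
  have hb : 0 < s.re - 1 := by linarith
  have h6 : 1 ≤ ‖LSeries (fun n : ℕ => χ (n : ZMod q)) s‖ * (2 / (s.re - 1)) :=
    le_of_eq_of_le h5.symm (mul_le_mul_of_nonneg_left h4 (norm_nonneg _))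
  rw [← div_le_iff₀ (by positivity)] at h6
  refine le_trans (le_of_eq ?_) h6
  field_simp

lemma le_norm_zeta {s : ℂ} (h1 : 1 < s.re) (h2 : s.re ≤ 2) :
    (s.re - 1) / 2 ≤ ‖riemannZeta s‖ := by
  have := le_norm_L (q := 1) 1 h1 h2
  rwa [DirichletCharacter.LFunction_modOne_eq] at this

end Pool.Agent.Work.MP_b0c12c_nt_helper70
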