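import Pool.Agent.Work.MP_b0c12c_nt_helper70.Region1
import Pool.Agent.Work.MP_b0c12c_nt.Interface2

/-!
# Zero-free region with one exceptional real character (block S1)
-/

set_option autoImplicit false

namespace Pool.Agent.Work.MP_b0c12c_nt_helper70

open Complex Filter Topology MeasureTheory Finset Metric
open Pool.Agent.Work.MP_b0c12c_nt.Itf2 (ZeroFree)
open scoped ArithmeticFunction.vonMangoldt ComplexConjugate

/-! ### positivity -/

lemma DD_hasSum {q : ℕ} [NeZero q] (χ : DirichletCharacter ℂ q) {s : ℂ} (hs : 1 < s.re) :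
    HasSum (fun n : ℕ => (LSeries.term ((fun n : ℕ => χ (n : ZMod q)) *
      (fun n : ℕ => ((Λ n : ℝ) : ℂ))) s n).re) (DD χ s).re :=
  Complex.hasSum_re (DirichletCharacter.LSeriesSummable_twist_vonMangoldt χ hs).hasSum

lemma term_eq {q : ℕ} (χ : DirichletCharacter ℂ q) {σ t : ℝ} {n : ℕ} (hn : n ≠ 0) :
    LSeries.term ((fun n : ℕ => χ (n : ZMod q)) * (fun n : ℕ => ((Λ n : ℝ) : ℂ)))
      ((σ : ℂ) + t * I) n =
      ((Λ n * (n : ℝ) ^ (-σ) : ℝ) : ℂ) * (χ (n : ZMod q) * (n : ℂ) ^ (-(t * I))) := by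
  have hn0 : (n : ℂ) ≠ 0 := by exact_mod_cast hn
  rw [LSeries.term_of_ne_zero hn, Pi.mul_apply, div_eq_mul_inv, ← cpow_neg, neg_add,
    cpow_add _ _ hn0]
  have h1 : ((n : ℝ) : ℂ) ^ ((-σ : ℝ) : ℂ) = (((n : ℝ) ^ (-σ) : ℝ) : ℂ) :=
    (Complex.ofReal_cpow (Nat.cast_nonneg n) _).symm
  rw [Complex.ofReal_natCast, Complex.ofReal_neg] at h1
  rw [h1]
  push_cast
  ring

lemma pos341 {q : ℕ} [NeZero q] (χ : DirichletCharacter ℂ q) {σ : ℝ} (hσ : 1 < σ) (t : ℝ) :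
    0 ≤ 3 * (DD (1 : DirichletCharacter ℂ q) ((σ : ℂ) + (0 : ℝ) * I)).re
      + 4 * (DD χ ((σ : ℂ) + t * I)).re + (DD (χ ^ 2) ((σ : ℂ) + (2 * t : ℝ) * I)).re := by
  have hre : ∀ u : ℝ, 1 < ((σ : ℂ) + u * I).re := by
    intro u
    simpa using hσ
  refine HasSum.nonneg (fun n => ?_) ((((DD_hasSum 1 (hre 0)).mul_left 3).add
    ((DD_hasSum χ (hre t)).mul_left 4)).add (DD_hasSum (χ ^ 2) (hre (2 * t))))
  rcases Nat.eq_zero_or_pos n with rfl | hn
  · simp
  rw [term_eq _ hn.ne', term_eq _ hn.ne', term_eq _ hn.ne']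
  rw [re_ofReal_mul, re_ofReal_mul, re_ofReal_mul]
  have hx : 0 ≤ Λ n * (n : ℝ) ^ (-σ) :=
    mul_nonneg ArithmeticFunction.vonMangoldt_nonneg (Real.rpow_nonneg (Nat.cast_nonneg n) _)
  by_cases hu : IsUnit (n : ZMod q)
  · have h1 : ‖χ (n : ZMod q)‖ = 1 := by
      obtain ⟨u, hu⟩ := hu
      rw [← hu]
      exact χ.unit_norm_eq_one u
    set w : ℂ := χ (n : ZMod q) * (n : ℂ) ^ (-(t * I)) with hw
    have h2 : ‖w‖ = 1 := by
      rw [hw, norm_mul, h1, norm_natCast_cpow_of_pos hn]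
      simp
    have h3 : (χ ^ 2) (n : ZMod q) * (n : ℂ) ^ (-((2 * t : ℝ) * I)) = w ^ 2 := by
      rw [hw, mul_pow, MulChar.pow_apply' χ two_ne_zero, ← cpow_nat_mul]
      congr 2
      push_cast
      ring
    have h4 : (1 : DirichletCharacter ℂ q) (n : ZMod q) * (n : ℂ) ^ (-(((0 : ℝ) : ℂ) * I)) = 1 := by
      rw [MulChar.one_apply hu]
      simp
    rw [h3, h4, one_re]
    have h5 : (w ^ 2).re = 2 * w.re ^ 2 - 1 := by
      have h6 : w.re ^ 2 + w.im ^ 2 = 1 := by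
        have := Complex.sq_norm w
        rw [h2, Complex.normSq_apply] at this
        nlinarith
      rw [sq, mul_re]
      nlinarith
    rw [h5]
    nlinarith [mul_nonneg hx (sq_nonneg (w.re + 1))]
  · rw [MulChar.map_nonunit _ hu, MulChar.map_nonunit _ hu, MulChar.map_nonunit _ hu]
    simp

lemma real_values {q : ℕ} {χ : DirichletCharacter ℂ q} (hχ : χ ^ 2 = 1) {a : ZMod q}
    (ha : IsUnit a) : χ a = 1 ∨ χ a = -1 := by
  have h1 : (χ ^ 2) a = 1 := by rw [hχ, MulChar.one_apply ha]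
  rw [MulChar.pow_apply' χ two_ne_zero] at h1
  exact sq_eq_one_iff.1 h1

lemma posR {q : ℕ} [NeZero q] {χ ψ : DirichletCharacter ℂ q} (hχ : χ ^ 2 = 1) (hψ : ψ ^ 2 = 1)
    {σ : ℝ} (hσ : 1 < σ) :
    0 ≤ (DD (1 : DirichletCharacter ℂ q) ((σ : ℂ) + (0 : ℝ) * I)).re
      + (DD χ ((σ : ℂ) + (0 : ℝ) * I)).re + (DD ψ ((σ : ℂ) + (0 : ℝ) * I)).re
      + (DD (χ * ψ) ((σ : ℂ) + (0 : ℝ) * I)).re := by
  have hre : 1 < ((σ : ℂ) + (0 : ℝ) * I).re := by
    simpa using hσ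
  refine HasSum.nonneg (fun n => ?_) ((((DD_hasSum 1 hre).add (DD_hasSum χ hre)).add
    (DD_hasSum ψ hre)).add (DD_hasSum (χ * ψ) hre))
  rcases Nat.eq_zero_or_pos n with rfl | hn
  · simp
  rw [term_eq _ hn.ne', term_eq _ hn.ne', term_eq _ hn.ne', term_eq _ hn.ne']
  rw [re_ofReal_mul, re_ofReal_mul, re_ofReal_mul, re_ofReal_mul]
  have hx : 0 ≤ Λ n * (n : ℝ) ^ (-σ) :=
    mul_nonneg ArithmeticFunction.vonMangoldt_nonneg (Real.rpow_nonneg (Nat.cast_nonneg n) _)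
  have e0 : (n : ℂ) ^ (-(((0 : ℝ) : ℂ) * I)) = 1 := by simp
  rw [e0]
  by_cases hu : IsUnit (n : ZMod q)
  · rw [MulChar.one_apply hu, MulChar.mul_apply]
    rcases real_values hχ hu with h | h <;> rcases real_values hψ hu with h' | h' <;>
      rw [h, h'] <;> simp
    · linarith
  · rw [MulChar.map_nonunit _ hu, MulChar.map_nonunit _ hu, MulChar.map_nonunit _ hu,
      MulChar.map_nonunit _ hu]
    simp

/-! ### conjugate zeros -/

lemma LFunction_conj {q : ℕ} [NeZero q] {χ : DirichletCharacter ℂ q} (hχ : χ ^ 2 = 1)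
    (h1 : χ ≠ 1) (s : ℂ) : χ.LFunction (conj s) = conj (χ.LFunction s) := by
  have hd := DirichletCharacter.differentiable_LFunction h1
  have hf : AnalyticOnNhd ℂ χ.LFunction Set.univ :=
    hd.differentiableOn.analyticOnNhd isOpen_univ
  have hgd : Differentiable ℂ (fun s => conj (χ.LFunction (conj s))) := by
    intro z
    have h2 := (hd (conj z)).conj_conj
    rw [Complex.conj_conj] at h2
    exact h2
  have hg : AnalyticOnNhd ℂ (fun s => conj (χ.LFunction (conj s))) Set.univ :=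
    hgd.differentiableOn.analyticOnNhd isOpen_univ
  have hev : χ.LFunction =ᶠ[𝓝 (2 : ℂ)] (fun s => conj (χ.LFunction (conj s))) := by
    have h2 : ∀ᶠ z in 𝓝 (2 : ℂ), 1 < z.re := by
      have : IsOpen {z : ℂ | 1 < z.re} := isOpen_lt continuous_const Complex.continuous_re
      refine this.mem_nhds ?_
      show (1 : ℝ) < (2 : ℂ).re
      norm_num
    filter_upwards [h2] with z hz
    have hz' : 1 < (conj z).re := by rwa [conj_re]
    rw [DirichletCharacter.LFunction_eq_LSeries χ hz, DirichletCharacter.LFunction_eq_LSeries χ hz']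
    unfold LSeries
    rw [Complex.conj_tsum]
    refine tsum_congr fun n => ?_
    rcases Nat.eq_zero_or_pos n with rfl | hn
    · simp
    · rw [LSeries.term_of_ne_zero hn.ne', LSeries.term_of_ne_zero hn.ne', map_div₀]
      have e1 : (n : ℂ) ^ (conj z) = conj ((n : ℂ) ^ z) := by
        have := Complex.cpow_conj (n : ℂ) z (by rw [Complex.natCast_arg]; exact Real.pi_pos.ne)
        rw [this, Complex.conj_natCast]
      have e2 : conj (χ (n : ZMod q)) = χ (n : ZMod q) := by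
        by_cases hu : IsUnit (n : ZMod q)
        · rcases real_values hχ hu with h | h <;> rw [h] <;> simp
        · rw [MulChar.map_nonunit _ hu, map_zero]
      rw [e1, e2, Complex.conj_conj]
  have hall := hf.eqOn_of_preconnected_of_eventuallyEq hg isPreconnected_univ (Set.mem_univ _) hev
  have := hall (Set.mem_univ (conj s))
  rw [this]
  simp only [Complex.conj_conj]

lemma re_one_div (x y : ℝ) : (1 / ((x : ℂ) + y * I)).re = x / (x ^ 2 + y ^ 2) := by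
  rw [one_div, Complex.inv_re, Complex.normSq_apply]
  simp
  ring

/-! ### the three contradictions -/

/-- bundle of facts on the parameters -/
structure Par (q : ℕ) (T M η E : ℝ) : Prop where
  hT : 1 ≤ T
  hMd : M = Real.log (q * (T + 2))
  hM : 4 ≤ M
  hη : 0 < η
  hη1 : 1 / M ^ 2 ≤ η
  hη2 : 100 * η ≤ 1 / M
  hE : 170 * M * Real.log M ≤ E
  hE0 : 0 < E
  hEη : 176 * E < 1 / η

variable {q : ℕ} [NeZero q] {T M η E : ℝ}

lemma Par.pt (P : Par q T M η E) {k t : ℝ} (hk1 : 1 ≤ k) (hk2 : k ≤ 100) (ht : |t| ≤ 2 * T) :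
    1 + 1 / M ^ 2 ≤ ((((1 + k * η : ℝ) : ℂ)) + t * I).re ∧
    ((((1 + k * η : ℝ) : ℂ)) + t * I).re ≤ 1 + 1 / M ∧
    |((((1 + k * η : ℝ) : ℂ)) + t * I).im| ≤ 2 * T := by
  have h1 : ((((1 + k * η : ℝ) : ℂ)) + t * I).re = 1 + k * η := by simp
  have h2 : ((((1 + k * η : ℝ) : ℂ)) + t * I).im = t := by simp
  rw [h1, h2]
  have := P.hη
  have h3 := P.hη1
  have h4 := P.hη2
  refine ⟨by nlinarith, by nlinarith, ht⟩

lemma Par.upN (P : Par q T M η E) (χ : DirichletCharacter ℂ q) (hχ : χ ≠ 1) {k t : ℝ}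
    (hk1 : 1 ≤ k) (hk2 : k ≤ 100) (ht : |t| ≤ 2 * T) (Z : Finset ℂ)
    (hZ : ∀ ρ ∈ Z, χ.LFunction ρ = 0 ∧ ‖ρ - ((((1 + k * η : ℝ) : ℂ)) + t * I)‖ ≤ 50 * η) :
    (DD χ ((((1 + k * η : ℝ) : ℂ)) + t * I)).re ≤
      E - ∑ ρ ∈ Z, (1 / (((((1 + k * η : ℝ) : ℂ)) + t * I) - ρ)).re := by
  obtain ⟨h1, h2, h3⟩ := P.pt hk1 hk2 ht
  have h4 : 50 * η ≤ 1 / (2 * M) := by
    have e : 1 / (2 * M) = (1 / M) / 2 := by field_simp
    rw [e]
    linarith [P.hη2]
  have h5 := Pool.Agent.Work.MP_b0c12c_nt_helper70.upN P.hT P.hMd P.hM χ hχ h1 h2 h3 Z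
    (fun ρ hρ => ⟨(hZ ρ hρ).1, (hZ ρ hρ).2.trans h4⟩)
  have h6 : 0 ≤ M * Real.log M :=
    mul_nonneg (by linarith [P.hM]) (Real.log_nonneg (by linarith [P.hM]))
  have h7 := P.hE
  linarith

lemma Par.upP (P : Par q T M η E) {k t : ℝ}
    (hk1 : 1 ≤ k) (hk2 : k ≤ 100) (ht : |t| ≤ 2 * T) :
    (DD (1 : DirichletCharacter ℂ q) ((((1 + k * η : ℝ) : ℂ)) + t * I)).re ≤
      E + (k * η) / ((k * η) ^ 2 + t ^ 2) := by
  obtain ⟨h1, h2, h3⟩ := P.pt hk1 hk2 ht
  have h5 := Pool.Agent.Work.MP_b0c12c_nt_helper70.upP (q := q) P.hT P.hMd P.hM h1 h2 h3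
  have e : ((((1 + k * η : ℝ) : ℂ)) + t * I) - 1 = (((k * η : ℝ) : ℂ)) + t * I := by
    push_cast; ring
  rw [e, re_one_div] at h5
  linarith [P.hE]

/-- a bad zero -/
def Bad (χ : DirichletCharacter ℂ q) (η T : ℝ) (s : ℂ) : Prop :=
  1 - η ≤ s.re ∧ |s.im| ≤ T ∧ χ.LFunction s = 0

lemma Bad.lt_one {χ : DirichletCharacter ℂ q} (hχ : χ ≠ 1) {s : ℂ} (h : Bad χ η T s) :
    s.re < 1 := by
  by_contra hcon
  push Not at hcon
  exact DirichletCharacter.LFunction_ne_zero_of_one_le_re χ (Or.inl hχ) hcon h.2.2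

lemma eq_re_add {ρ : ℂ} {x : ℝ} : (((x : ℝ) : ℂ) + ρ.im * I) - ρ = ((x - ρ.re : ℝ) : ℂ) := by
  apply Complex.ext <;> simp

/-- the zero at height `γ` seen from the right -/
lemma Par.one_zero (P : Par q T M η E) {χ : DirichletCharacter ℂ q} (hχ : χ ≠ 1) {s : ℂ}
    (h : Bad χ η T s) {k : ℝ} (hk1 : 1 ≤ k) (hk2 : k ≤ 40) :
    (DD χ ((((1 + k * η : ℝ) : ℂ)) + s.im * I)).re ≤ E - (1 / η) / (k + 1) := by
  have hlt := h.lt_one hχ
  have hη := P.hη
  have h1 : ‖s - ((((1 + k * η : ℝ) : ℂ)) + s.im * I)‖ ≤ 50 * η := by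
    rw [norm_sub_rev, eq_re_add, Complex.norm_real, Real.norm_eq_abs, abs_le]
    have := h.1
    constructor <;> nlinarith
  have h2 := P.upN χ hχ hk1 (by linarith) (t := s.im) (by linarith [h.2.1, P.hT]) {s}
    (fun ρ hρ => by rw [Finset.mem_singleton] at hρ; subst hρ; exact ⟨h.2.2, h1⟩)
  rw [Finset.sum_singleton, eq_re_add, ← Complex.ofReal_one, ← Complex.ofReal_div,
    Complex.ofReal_re] at h2
  have h3 : (1 / η) / (k + 1) ≤ 1 / (1 + k * η - s.re) := by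
    rw [div_div]
    have := h.1
    exact one_div_le_one_div_of_le (by nlinarith) (by nlinarith)
  linarith

lemma Par.caseA (P : Par q T M η E) {χ : DirichletCharacter ℂ q} (hχ : χ ≠ 1) {s : ℂ}
    (h : Bad χ η T s) : χ ^ 2 = 1 := by
  by_contra h2
  have hη := P.hη
  have hE0 := P.hE0
  have hEη := P.hEη
  have p := pos341 χ (σ := 1 + 7 * η) (by linarith) s.im
  have a1 := P.upP (k := 7) (t := 0) (by norm_num) (by norm_num) (by
    rw [abs_zero]; linarith [P.hT])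
  have a2 := P.one_zero hχ h (k := 7) (by norm_num) (by norm_num)
  have a3 := P.upN (χ ^ 2) h2 (k := 7) (t := 2 * s.im) (by norm_num) (by norm_num) (by
    rw [abs_mul, abs_two]; linarith [h.2.1]) ∅ (by simp)
  rw [Finset.sum_empty] at a3
  have e1 : (7 * η) / ((7 * η) ^ 2 + 0 ^ 2) = (1 / η) / 7 := by field_simp; ring
  rw [e1] at a1
  linarith

lemma Par.caseB1 (P : Par q T M η E) {χ : DirichletCharacter ℂ q} (hχ : χ ≠ 1)
    (h2 : χ ^ 2 = 1) {s : ℂ} (h : Bad χ η T s) : |s.im| < 10 * η := by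
  by_contra hcon
  push Not at hcon
  have hη := P.hη
  have hE0 := P.hE0
  have hEη := P.hEη
  have p := pos341 χ (σ := 1 + 7 * η) (by linarith) s.im
  have a1 := P.upP (k := 7) (t := 0) (by norm_num) (by norm_num) (by
    rw [abs_zero]; linarith [P.hT])
  have a2 := P.one_zero hχ h (k := 7) (by norm_num) (by norm_num)
  have a3 := P.upP (k := 7) (t := 2 * s.im) (by norm_num) (by norm_num) (by
    rw [abs_mul, abs_two]; linarith [h.2.1])
  have e1 : (7 * η) / ((7 * η) ^ 2 + 0 ^ 2) = (1 / η) / 7 := by field_simp; ring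
  rw [e1] at a1
  rw [h2] at p
  have hsq : 100 * η ^ 2 ≤ s.im ^ 2 := by
    have : (10 * η) ^ 2 ≤ |s.im| ^ 2 := pow_le_pow_left₀ (by positivity) hcon 2
    rw [sq_abs] at this
    linarith
  have e2 : (7 * η) / ((7 * η) ^ 2 + (2 * s.im) ^ 2) ≤ (1 / η) * (7 / 449) := by
    rw [div_le_iff₀ (by positivity)]
    have : (1 / η) * (7 / 449) * (449 * η ^ 2) = 7 * η := by field_simp
    rw [← this]
    refine mul_le_mul_of_nonneg_left ?_ (by positivity)
    nlinarith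
  nlinarith

lemma Par.caseB2 (P : Par q T M η E) {χ : DirichletCharacter ℂ q} (hχ : χ ≠ 1)
    (h2 : χ ^ 2 = 1) {s : ℂ} (h : Bad χ η T s) : s.im = 0 := by
  by_contra hne
  have hlt := h.lt_one hχ
  have hb := P.caseB1 hχ h2 h
  have hη := P.hη
  have hE0 := P.hE0
  have hEη := P.hEη
  have p := posR (χ := χ) (ψ := 1) h2 (one_pow 2) (σ := 1 + 20 * η) (by linarith)
  rw [mul_one] at p
  have a1 := P.upP (k := 20) (t := 0) (by norm_num) (by norm_num) (by
    rw [abs_zero]; linarith [P.hT])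
  have e1 : (20 * η) / ((20 * η) ^ 2 + 0 ^ 2) = (1 / η) / 20 := by field_simp; ring
  rw [e1] at a1
  have hcne : s ≠ conj s := by
    intro hs
    have := congrArg Complex.im hs
    rw [conj_im] at this
    exact hne (by linarith)
  have hdist : ∀ ρ : ℂ, ρ.re = s.re → |ρ.im| = |s.im| →
      ‖ρ - ((((1 + 20 * η : ℝ) : ℂ)) + (0 : ℝ) * I)‖ ≤ 50 * η := by
    intro ρ hr hi
    have e := Complex.norm_le_abs_re_add_abs_im (ρ - ((((1 + 20 * η : ℝ) : ℂ)) + (0 : ℝ) * I))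
    have e3 : (ρ - ((((1 + 20 * η : ℝ) : ℂ)) + (0 : ℝ) * I)).re = s.re - (1 + 20 * η) := by
      simp [hr]
    have e4 : (ρ - ((((1 + 20 * η : ℝ) : ℂ)) + (0 : ℝ) * I)).im = ρ.im := by
      simp
    rw [e3, e4, hi] at e
    have e5 : |s.re - (1 + 20 * η)| ≤ 21 * η := by
      rw [abs_le]
      have := h.1
      constructor <;> linarith
    linarith
  have a2 := P.upN χ hχ (k := 20) (t := 0) (by norm_num) (by norm_num) (by
    rw [abs_zero]; linarith [P.hT]) {s, conj s} (fun ρ hρ => by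
      rw [Finset.mem_insert, Finset.mem_singleton] at hρ
      rcases hρ with rfl | rfl
      · exact ⟨h.2.2, hdist _ rfl rfl⟩
      · refine ⟨by rw [LFunction_conj h2 hχ, h.2.2, map_zero], hdist _ (conj_re s) ?_⟩
        rw [conj_im, abs_neg])
  rw [Finset.sum_pair hcne] at a2
  have f1 : (((((1 + 20 * η : ℝ) : ℂ)) + (0 : ℝ) * I) - s) =
      (((1 + 20 * η - s.re : ℝ) : ℂ)) + ((-s.im : ℝ) : ℂ) * I := by
    apply Complex.ext <;> simp
  have f2 : (((((1 + 20 * η : ℝ) : ℂ)) + (0 : ℝ) * I) - conj s) =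
      (((1 + 20 * η - s.re : ℝ) : ℂ)) + ((s.im : ℝ) : ℂ) * I := by
    apply Complex.ext <;> simp
  rw [f1, f2, re_one_div, re_one_div] at a2
  set x : ℝ := 1 + 20 * η - s.re with hx
  have hx1 : 20 * η ≤ x := by rw [hx]; linarith
  have hx2 : x ≤ 21 * η := by rw [hx]; linarith [h.1]
  have hsq : s.im ^ 2 ≤ 100 * η ^ 2 := by
    have : |s.im| ^ 2 ≤ (10 * η) ^ 2 := pow_le_pow_left₀ (abs_nonneg _) hb.le 2
    rw [sq_abs] at this
    linarith
  have hx0 : 0 < x := by linarith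
  have g1 : (1 / η) * (21 / 541) ≤ x / (x ^ 2 + s.im ^ 2) := by
    rw [le_div_iff₀ (by positivity)]
    have g2 : (1 / η) * (21 / 541) * (x ^ 2 + s.im ^ 2) ≤
        (1 / η) * (21 / 541) * (x ^ 2 + 100 * η ^ 2) :=
      mul_le_mul_of_nonneg_left (by linarith) (by positivity)
    refine g2.trans ?_
    have g3 : (1 / η) * (21 / 541) * (x ^ 2 + 100 * η ^ 2) =
        (1 / η) * ((21 / 541) * (x ^ 2 + 100 * η ^ 2)) := by ring
    have g4 : x = (1 / η) * (x * η) := by field_simp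
    rw [g3]
    conv_rhs => rw [g4]
    refine mul_le_mul_of_nonneg_left ?_ (by positivity)
    nlinarith [mul_nonneg (sub_nonneg.2 hx2) (by linarith : 0 ≤ 21 * x - 100 * η)]
  have g5 : (-s.im) ^ 2 = s.im ^ 2 := by ring
  rw [g5] at a2
  linarith

lemma Par.caseC (P : Par q T M η E) {χ ψ : DirichletCharacter ℂ q} (hχ : χ ≠ 1) (hψ : ψ ≠ 1)
    {s t : ℂ} (hs : Bad χ η T s) (ht : Bad ψ η T t) : χ = ψ := by
  by_contra hne
  have hχ2 := P.caseA hχ hs
  have hψ2 := P.caseA hψ ht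
  have hs0 := P.caseB2 hχ hχ2 hs
  have ht0 := P.caseB2 hψ hψ2 ht
  have hη := P.hη
  have hE0 := P.hE0
  have hEη := P.hEη
  have hprod : χ * ψ ≠ 1 := by
    intro h
    apply hne
    have h1 : χ = ψ⁻¹ := eq_inv_of_mul_eq_one_left h
    have h2 : ψ⁻¹ = ψ := by
      rw [inv_eq_iff_mul_eq_one, ← sq]
      exact hψ2
    rw [h1, h2]
  have p := posR hχ2 hψ2 (σ := 1 + 2 * η) (by linarith)
  have a1 := P.upP (k := 2) (t := 0) (by norm_num) (by norm_num) (by
    rw [abs_zero]; linarith [P.hT])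
  have e1 : (2 * η) / ((2 * η) ^ 2 + 0 ^ 2) = (1 / η) / 2 := by field_simp; ring
  rw [e1] at a1
  have a2 := P.one_zero hχ hs (k := 2) (by norm_num) (by norm_num)
  have a3 := P.one_zero hψ ht (k := 2) (by norm_num) (by norm_num)
  rw [hs0] at a2
  rw [ht0] at a3
  have a4 := P.upN (χ * ψ) hprod (k := 2) (t := 0) (by norm_num) (by norm_num) (by
    rw [abs_zero]; linarith [P.hT]) ∅ (by simp)
  rw [Finset.sum_empty] at a4
  linarith

/-- **Block S1**. -/
theorem zeroFree : ZeroFree := by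
  intro κ hκ
  set κ' : ℝ := min κ 1 with hκ'
  have hκ0 : 0 < κ' := lt_min hκ one_pos
  have hκ1 : κ' ≤ 1 := min_le_right _ _
  have hκ2 : κ' ≤ κ := min_le_left _ _
  have hev : ∀ᶠ M : ℝ in atTop, 30000 * Real.log M < M ^ κ' := by
    have h1 := (isLittleO_log_rpow_atTop hκ0).def (show (0 : ℝ) < 1 / 40000 by norm_num)
    filter_upwards [h1, eventually_ge_atTop (4 : ℝ)] with M hM hM4
    rw [Real.norm_eq_abs, Real.norm_eq_abs, abs_of_nonneg (Real.log_nonneg (by linarith)),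
      abs_of_nonneg (Real.rpow_nonneg (by linarith) _)] at hM
    have : 0 < M ^ κ' := Real.rpow_pos_of_pos (by linarith) _
    linarith
  obtain ⟨M0, hM0⟩ := (hev.and (eventually_ge_atTop (4 : ℝ))).exists_forall_of_atTop
  refine ⟨M0, fun q _ T hT hM => ?_⟩
  set M : ℝ := Real.log (q * (T + 2)) with hMd
  obtain ⟨hlogM, hM4⟩ := hM0 M hM
  have hMpos : 0 < M := by linarith
  have hlog : 1 ≤ Real.log M := by
    rw [Real.le_log_iff_exp_le hMpos]
    linarith [exp_one_lt]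
  set η : ℝ := M ^ (-(1 + κ')) with hη
  have hη0 : 0 < η := Real.rpow_pos_of_pos hMpos _
  have hinv : 1 / η = M * M ^ κ' := by
    rw [hη, Real.rpow_neg hMpos.le, one_div, inv_inv, Real.rpow_add hMpos, Real.rpow_one]
  have hbig : 30000 * (M * Real.log M) < 1 / η := by
    rw [hinv]
    have := mul_lt_mul_of_pos_left hlogM hMpos
    linarith
  have P : Par q T M η (170 * M * Real.log M) := by
    refine ⟨hT, hMd, hM4, hη0, ?_, ?_, le_rfl, by positivity, ?_⟩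
    · have h1 : M ^ (-(2 : ℝ)) ≤ η :=
        Real.rpow_le_rpow_of_exponent_le (by linarith) (by linarith)
      refine le_trans (le_of_eq ?_) h1
      rw [Real.rpow_neg hMpos.le, one_div]
      norm_cast
    · have h1 : 100 * M ≤ 1 / η := by nlinarith
      rw [le_div_iff₀ hη0] at h1
      rw [le_div_iff₀ hMpos]
      linarith
    · nlinarith [mul_pos hMpos (by linarith : 0 < Real.log M)]
  have hred : ∀ (χ : DirichletCharacter ℂ q) (s : ℂ), 1 - M ^ (-(1 + κ)) ≤ s.re → |s.im| ≤ T →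
      χ.LFunction s = 0 → Bad χ η T s := by
    intro χ s h1 h2 h3
    refine ⟨?_, h2, h3⟩
    have : M ^ (-(1 + κ)) ≤ η :=
      Real.rpow_le_rpow_of_exponent_le (by linarith) (by linarith)
    linarith
  by_cases hex : ∃ χ : DirichletCharacter ℂ q, χ ≠ 1 ∧ ∃ s : ℂ, Bad χ η T s
  · obtain ⟨χ₁, hχ₁, s₁, hs₁⟩ := hex
    refine ⟨χ₁, fun χ hχ s h1 h2 h3 => ?_⟩
    have hb := hred χ s h1 h2 h3
    have h4 := P.caseA hχ hb
    exact ⟨P.caseC hχ hχ₁ hb hs₁, h4, P.caseB2 hχ h4 hb⟩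
  · refine ⟨1, fun χ hχ s h1 h2 h3 => ?_⟩
    exact absurd ⟨χ, hχ, s, hred χ s h1 h2 h3⟩ hex

end Pool.Agent.Work.MP_b0c12c_nt_helper70
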