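import Mathlib

/-!
# Landau's local lemma: real part of the logarithmic derivative near a zero-free half disc
-/

set_option autoImplicit false

namespace Pool.Agent.Work.MP_b0c12c_nt_helper70

open Complex Metric Filter Topology

/-- product of `s - ρ` -/
noncomputable def PP (L : List ℂ) (s : ℂ) : ℂ := (L.map (fun ρ => s - ρ)).prod

lemma PP_nil (s : ℂ) : PP [] s = 1 := rfl

lemma PP_cons (ρ : ℂ) (L : List ℂ) (s : ℂ) : PP (ρ :: L) s = (s - ρ) * PP L s := by
  simp [PP]

lemma PP_differentiable (L : List ℂ) : Differentiable ℂ (PP L) := by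
  induction L with
  | nil => exact differentiable_const 1
  | cons ρ L ih =>
    have : PP (ρ :: L) = fun s => (s - ρ) * PP L s := by
      funext s; exact PP_cons ρ L s
    rw [this]
    exact (differentiable_id.sub_const ρ).mul ih

lemma PP_ne {L : List ℂ} {s : ℂ} (h : ∀ ρ ∈ L, ρ ≠ s) : PP L s ≠ 0 := by
  induction L with
  | nil => rw [PP_nil]; exact one_ne_zero
  | cons ρ L ih =>
    rw [PP_cons]
    refine mul_ne_zero (sub_ne_zero.2 (h ρ List.mem_cons_self).symm)
      (ih fun ρ' h' => h ρ' (List.mem_cons_of_mem _ h'))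

lemma PP_le {L : List ℂ} {s : ℂ} {c : ℝ} (hc : 0 ≤ c) (h : ∀ ρ ∈ L, ‖s - ρ‖ ≤ c) :
    ‖PP L s‖ ≤ c ^ L.length := by
  induction L with
  | nil => simp [PP_nil]
  | cons ρ L ih =>
    rw [PP_cons, norm_mul, List.length_cons, pow_succ']
    exact mul_le_mul (h ρ List.mem_cons_self) (ih fun ρ' h' => h ρ' (List.mem_cons_of_mem _ h'))
      (norm_nonneg _) hc

lemma le_PP {L : List ℂ} {s : ℂ} {c : ℝ} (hc : 0 ≤ c) (h : ∀ ρ ∈ L, c ≤ ‖s - ρ‖) :
    c ^ L.length ≤ ‖PP L s‖ := by
  induction L with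
  | nil => simp [PP_nil]
  | cons ρ L ih =>
    rw [PP_cons, norm_mul, List.length_cons, pow_succ']
    exact mul_le_mul (h ρ List.mem_cons_self) (ih fun ρ' h' => h ρ' (List.mem_cons_of_mem _ h'))
      (pow_nonneg hc _) (norm_nonneg _)

/-- `f` factors through `n` zeros in the disc of radius `r / 4`. -/
def Good (f : ℂ → ℂ) (s0 : ℂ) (r : ℝ) (L : List ℂ) (g : ℂ → ℂ) : Prop :=
  Differentiable ℂ g ∧ (∀ s, f s = PP L s * g s) ∧ ∀ ρ ∈ L, ρ ∈ closedBall s0 (r / 4)

lemma good_bound {f : ℂ → ℂ} {s0 : ℂ} {r m : ℝ} (hr : 0 < r)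
    (hb : ∀ s ∈ closedBall s0 r, ‖f s‖ ≤ Real.exp m * ‖f s0‖) {L : List ℂ} {g : ℂ → ℂ}
    (hG : Good f s0 r L g) {s : ℂ} (hs : s ∈ closedBall s0 r) :
    ‖g s‖ * 3 ^ L.length ≤ Real.exp m * ‖g s0‖ := by
  obtain ⟨hg, hfg, hL⟩ := hG
  have h3 : (0 : ℝ) < 3 ^ L.length := by positivity
  rw [← le_div_iff₀ h3]
  have hcl : s ∈ closure (ball s0 r) := by rwa [closure_ball s0 hr.ne']
  refine Complex.norm_le_of_forall_mem_frontier_norm_le isBounded_ball
    (hg.diffContOnCl) ?_ hcl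
  intro z hz
  rw [frontier_ball s0 hr.ne', mem_sphere, dist_eq_norm] at hz
  rw [le_div_iff₀ h3]
  have e1 : (3 * (r / 4)) ^ L.length ≤ ‖PP L z‖ := by
    refine le_PP (by positivity) fun ρ hρ => ?_
    have h1 := hL ρ hρ
    rw [mem_closedBall, dist_eq_norm] at h1
    have h2 : ‖z - s0‖ ≤ ‖z - ρ‖ + ‖ρ - s0‖ := by
      have : z - s0 = (z - ρ) + (ρ - s0) := by ring
      rw [this]; exact norm_add_le _ _
    linarith
  have e2 : ‖PP L s0‖ ≤ (r / 4) ^ L.length := by
    refine PP_le (by positivity) fun ρ hρ => ?_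
    have h1 := hL ρ hρ
    rw [mem_closedBall, dist_eq_norm] at h1
    rwa [norm_sub_rev]
  have e3 : ‖PP L z‖ * ‖g z‖ ≤ Real.exp m * (‖PP L s0‖ * ‖g s0‖) := by
    rw [← norm_mul, ← norm_mul, ← hfg, ← hfg]
    apply hb
    rw [mem_closedBall, dist_eq_norm, hz]
  have e4 : 0 < (r / 4) ^ L.length := by positivity
  have e5 : (r / 4) ^ L.length * (‖g z‖ * 3 ^ L.length) ≤
      (r / 4) ^ L.length * (Real.exp m * ‖g s0‖) := by
    calc (r / 4) ^ L.length * (‖g z‖ * 3 ^ L.length)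
        = (3 * (r / 4)) ^ L.length * ‖g z‖ := by rw [mul_pow]; ring
      _ ≤ ‖PP L z‖ * ‖g z‖ := mul_le_mul_of_nonneg_right e1 (norm_nonneg _)
      _ ≤ Real.exp m * (‖PP L s0‖ * ‖g s0‖) := e3
      _ ≤ Real.exp m * ((r / 4) ^ L.length * ‖g s0‖) := by
          apply mul_le_mul_of_nonneg_left _ (Real.exp_pos m).le
          exact mul_le_mul_of_nonneg_right e2 (norm_nonneg _)
      _ = _ := by ring
  exact le_of_mul_le_mul_left e5 e4

lemma good_extend {f : ℂ → ℂ} {s0 : ℂ} {r : ℝ} {L : List ℂ} {g : ℂ → ℂ}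
    (hG : Good f s0 r L g) {ρ : ℂ} (hρ : ρ ∈ closedBall s0 (r / 4)) (h0 : g ρ = 0) :
    ∃ g', Good f s0 r (ρ :: L) g' := by
  obtain ⟨hg, hfg, hL⟩ := hG
  refine ⟨dslope g ρ, ?_, ?_, ?_⟩
  · have := (Complex.differentiableOn_dslope (s := Set.univ) (c := ρ) (f := g) univ_mem).2
      hg.differentiableOn
    exact differentiableOn_univ.1 this
  · intro s
    have h1 := sub_smul_dslope g ρ s
    rw [smul_eq_mul, h0, sub_zero] at h1
    rw [hfg, PP_cons, ← h1]
    ring
  · intro ρ' h'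
    rcases List.mem_cons.1 h' with rfl | h'
    · exact hρ
    · exact hL ρ' h'

lemma exists_extract {f : ℂ → ℂ} (hf : Differentiable ℂ f) {s0 : ℂ} {r m : ℝ} (hr : 0 < r)
    (h0 : f s0 ≠ 0) (hb : ∀ s ∈ closedBall s0 r, ‖f s‖ ≤ Real.exp m * ‖f s0‖) :
    ∃ (L : List ℂ) (g : ℂ → ℂ), Good f s0 r L g ∧ ∀ s ∈ closedBall s0 (r / 4), g s ≠ 0 := by
  by_contra hcon
  push Not at hcon
  have key : ∀ n : ℕ, ∃ (L : List ℂ) (g : ℂ → ℂ), Good f s0 r L g ∧ L.length = n := by
    intro n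
    induction n with
    | zero => exact ⟨[], f, ⟨hf, fun s => by rw [PP_nil, one_mul], by simp⟩, rfl⟩
    | succ n ih =>
      obtain ⟨L, g, hG, hn⟩ := ih
      obtain ⟨ρ, hρ, hρ0⟩ := hcon L g hG
      obtain ⟨g', hG'⟩ := good_extend hG hρ hρ0
      exact ⟨ρ :: L, g', hG', by rw [List.length_cons, hn]⟩
  obtain ⟨n, hn⟩ := pow_unbounded_of_one_lt (Real.exp m) (by norm_num : (1 : ℝ) < 3)
  obtain ⟨L, g, hG, hLn⟩ := key n
  have h1 := good_bound hr hb hG (mem_closedBall_self hr.le)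
  rw [hLn, mul_comm] at h1
  have h2 : 0 < ‖g s0‖ := by
    rw [norm_pos_iff]
    intro h
    exact h0 (by rw [hG.2.1, h, mul_zero])
  have h3 := le_of_mul_le_mul_right h1 h2
  linarith

lemma exists_log_ball {g : ℂ → ℂ} {c : ℂ} {R : ℝ} (hR : 0 < R)
    (hg : DifferentiableOn ℂ g (ball c R)) (hne : ∀ z ∈ ball c R, g z ≠ 0) :
    ∃ l : ℂ → ℂ, DifferentiableOn ℂ l (ball c R) ∧ ∀ z ∈ ball c R, exp (l z) = g z := by
  have hdg : DifferentiableOn ℂ (deriv g) (ball c R) := hg.deriv isOpen_ball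
  have hq : DifferentiableOn ℂ (fun z => deriv g z / g z) (ball c R) := hdg.div hg hne
  obtain ⟨F, hF⟩ := hq.isExactOn_ball
  have hFd : DifferentiableOn ℂ F (ball c R) :=
    fun z hz => (hF z hz).differentiableAt.differentiableWithinAt
  have hgat : ∀ z ∈ ball c R, HasDerivAt g (deriv g z) z := fun z hz =>
    (hg.differentiableAt (isOpen_ball.mem_nhds hz)).hasDerivAt
  have hG : ∀ z ∈ ball c R, HasDerivAt (fun z => g z * exp (-F z)) 0 z := by
    intro z hz
    have h1 := (hgat z hz).mul ((hF z hz).neg.cexp)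
    refine h1.congr_deriv ?_
    have := hne z hz
    field_simp
    ring
  have hGd : DifferentiableOn ℂ (fun z => g z * exp (-F z)) (ball c R) :=
    fun z hz => (hG z hz).differentiableAt.differentiableWithinAt
  have hconst : ∀ z ∈ ball c R, g z * exp (-F z) = g c * exp (-F c) := by
    intro z hz
    exact isOpen_ball.is_const_of_deriv_eq_zero (convex_ball c R).isPreconnected hGd
      (fun x hx => (hG x hx).deriv) hz (mem_ball_self hR)
  have hcne : g c * exp (-F c) ≠ 0 := mul_ne_zero (hne c (mem_ball_self hR)) (exp_ne_zero _)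
  refine ⟨fun z => F z + log (g c * exp (-F c)), hFd.add_const _, ?_⟩
  intro z hz
  rw [exp_add, exp_log hcne, ← hconst z hz]
  rw [mul_left_comm, ← exp_add]
  simp

/-- Borel-Carathéodory for the logarithmic derivative of a zero-free function. -/
lemma logDeriv_bound {g : ℂ → ℂ} (hg : Differentiable ℂ g) {c : ℂ} {R m : ℝ} (hR : 0 < R)
    (hm : 0 < m) (hne : ∀ z ∈ ball c R, g z ≠ 0)
    (hb : ∀ z ∈ ball c R, ‖g z‖ ≤ Real.exp m * ‖g c‖) : ‖deriv g c / g c‖ ≤ 4 * m / R := by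
  obtain ⟨l, hl, hexp⟩ := exists_log_ball hR hg.differentiableOn hne
  have hre : ∀ z ∈ ball c R, (l z).re = Real.log ‖g z‖ := by
    intro z hz
    rw [← hexp z hz, norm_exp, Real.log_exp]
  have hcb : c ∈ ball c R := mem_ball_self hR
  have hmaps : Set.MapsTo (fun w => c + w) (ball (0:ℂ) R) (ball c R) := by
    intro w hw
    rw [mem_ball_zero_iff] at hw
    rw [mem_ball, dist_eq_norm]
    simpa using hw
  have hd : DifferentiableOn ℂ (fun w => l (c + w) - l c) (ball 0 R) := by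
    apply DifferentiableOn.sub_const
    exact hl.comp ((differentiable_const _).add differentiable_id).differentiableOn hmaps
  have hle : Set.MapsTo (fun w => l (c + w) - l c) (ball (0:ℂ) R) {z | z.re ≤ m} := by
    intro w hw
    have h1 := hmaps hw
    show (l (c + w) - l c).re ≤ m
    rw [sub_re, hre _ h1, hre _ hcb]
    have h2 : Real.log ‖g (c + w)‖ ≤ m + Real.log ‖g c‖ := by
      have hpos : 0 < ‖g c‖ := norm_pos_iff.2 (hne _ hcb)
      have h3 := Real.log_le_log (norm_pos_iff.2 (hne _ h1)) (hb _ h1)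
      rwa [Real.log_mul (Real.exp_pos m).ne' hpos.ne', Real.log_exp] at h3
    linarith
  -- bound on the sphere of radius R / 2
  have hsph : ∀ z ∈ sphere c (R / 2), ‖l z - l c‖ ≤ 2 * m := by
    intro z hz
    rw [mem_sphere, dist_eq_norm] at hz
    have hzb : z - c ∈ ball (0:ℂ) R := by
      rw [mem_ball_zero_iff]
      linarith
    have key := borelCaratheodory_zero hm hd hle hR hzb (by simp)
    have hzc : c + (z - c) = z := by ring
    simp only [hzc] at key
    rw [hz] at key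
    have : 2 * m * (R / 2) / (R - R / 2) = 2 * m := by
      field_simp
      ring
    rwa [this] at key
  have hsub : closedBall c (R / 2) ⊆ ball c R := closedBall_subset_ball (by linarith)
  have hdc : DiffContOnCl ℂ (fun z => l z - l c) (ball c (R / 2)) := by
    apply DifferentiableOn.diffContOnCl
    rw [closure_ball c (by positivity)]
    exact (hl.mono hsub).sub_const _
  have hder := Complex.norm_deriv_le_of_forall_mem_sphere_norm_le (by positivity) hdc hsph
  have hlat : HasDerivAt l (deriv l c) c :=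
    (hl.differentiableAt (isOpen_ball.mem_nhds hcb)).hasDerivAt
  have h5 : deriv (fun z => l z - l c) c = deriv l c := by
    exact (hlat.sub_const _).deriv
  rw [h5] at hder
  have h6 : deriv g c / g c = deriv l c := by
    have h7 : HasDerivAt g (exp (l c) * deriv l c) c := by
      have h8 := hlat.cexp
      refine h8.congr_of_eventuallyEq ?_
      filter_upwards [isOpen_ball.mem_nhds hcb] with z hz
      rw [hexp z hz]
    rw [h7.deriv, hexp c hcb]
    field_simp [hne c hcb]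
  rw [h6]
  refine hder.trans (le_of_eq ?_)
  field_simp
  ring

lemma re_one_div_nonneg {s0 ρ : ℂ} (h : ρ.re ≤ s0.re) : 0 ≤ (1 / (s0 - ρ)).re := by
  rw [one_div, Complex.inv_re]
  apply div_nonneg
  · rw [sub_re]; linarith
  · exact Complex.normSq_nonneg _

lemma logDeriv_PP {L : List ℂ} {g : ℂ → ℂ} (hg : Differentiable ℂ g) {s0 : ℂ}
    (hL : ∀ ρ ∈ L, ρ ≠ s0) (hg0 : g s0 ≠ 0) :
    deriv (fun s => PP L s * g s) s0 / (PP L s0 * g s0) =
      (L.map (fun ρ => 1 / (s0 - ρ))).sum + deriv g s0 / g s0 := by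
  have hP : PP L s0 ≠ 0 := PP_ne hL
  have h1 : deriv (fun s => PP L s * g s) s0 = deriv (PP L) s0 * g s0 + PP L s0 * deriv g s0 :=
    ((PP_differentiable L s0).hasDerivAt.mul (hg s0).hasDerivAt).deriv
  have h2 : deriv (PP L) s0 / PP L s0 = (L.map (fun ρ => 1 / (s0 - ρ))).sum := by
    clear h1 hP
    induction L with
    | nil =>
      have : PP [] = fun _ => (1 : ℂ) := by funext s; rfl
      rw [this]; simp
    | cons ρ L ih =>
      have hL' : ∀ ρ ∈ L, ρ ≠ s0 := fun ρ' h' => hL ρ' (List.mem_cons_of_mem _ h')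
      have hP : PP L s0 ≠ 0 := PP_ne hL'
      have hρ : s0 - ρ ≠ 0 := sub_ne_zero.2 (hL ρ List.mem_cons_self).symm
      have h3 : PP (ρ :: L) = fun s => (s - ρ) * PP L s := by
        funext s; exact PP_cons ρ L s
      have h4 : deriv (PP (ρ :: L)) s0 = 1 * PP L s0 + (s0 - ρ) * deriv (PP L) s0 := by
        rw [h3]
        exact (((hasDerivAt_id s0).sub_const ρ).mul (PP_differentiable L s0).hasDerivAt).deriv
      rw [h4, PP_cons, List.map_cons, List.sum_cons, ← ih hL']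
      field_simp
  rw [h1, ← h2]
  field_simp

/-- **Landau's local lemma**. -/
theorem local_lemma {f : ℂ → ℂ} (hf : Differentiable ℂ f) {s0 : ℂ} {r m : ℝ} (hr : 0 < r)
    (hm : 0 < m) (h0 : f s0 ≠ 0) (hb : ∀ s ∈ closedBall s0 r, ‖f s‖ ≤ Real.exp m * ‖f s0‖)
    (hz : ∀ s, f s = 0 → s.re ≤ s0.re) (Z : Finset ℂ)
    (hZ : ∀ ρ ∈ Z, f ρ = 0 ∧ ‖ρ - s0‖ ≤ r / 4) :
    -(deriv f s0 / f s0).re ≤ 16 * m / r - ∑ ρ ∈ Z, (1 / (s0 - ρ)).re := by
  classical
  obtain ⟨L, g, hG, hgne⟩ := exists_extract hf hr h0 hb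
  have hG' := hG
  obtain ⟨hg, hfg, hL⟩ := hG'
  have hg0 : g s0 ≠ 0 := hgne s0 (mem_closedBall_self (by positivity))
  have hLz : ∀ ρ ∈ L, f ρ = 0 := by
    intro ρ hρ
    rw [hfg]
    have : PP L ρ = 0 := by
      unfold PP
      rw [List.prod_eq_zero_iff, List.mem_map]
      exact ⟨ρ, hρ, sub_self ρ⟩
    rw [this, zero_mul]
  have hLne : ∀ ρ ∈ L, ρ ≠ s0 := by
    rintro ρ hρ rfl
    exact h0 (hLz ρ hρ)
  have hfe : f = fun s => PP L s * g s := by funext s; exact hfg s
  have h1 : deriv f s0 / f s0 = (L.map (fun ρ => 1 / (s0 - ρ))).sum + deriv g s0 / g s0 := by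
    have := logDeriv_PP hg hLne hg0
    rw [hfg s0]
    rw [← this]
    conv_lhs => rw [hfe]
  have hgb : ∀ z ∈ ball s0 (r / 4), ‖g z‖ ≤ Real.exp m * ‖g s0‖ := by
    intro z hz
    have h2 := good_bound hr hb hG (s := z) (by
      rw [mem_ball] at hz
      rw [mem_closedBall]
      linarith)
    have h3 : (1 : ℝ) ≤ 3 ^ L.length := one_le_pow₀ (by norm_num)
    nlinarith [norm_nonneg (g z)]
  have h2 := logDeriv_bound hg (c := s0) (R := r / 4) (by positivity) hm
    (fun z hz => hgne z (ball_subset_closedBall hz)) hgb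
  have h3 : -(deriv g s0 / g s0).re ≤ 16 * m / r := by
    have h4 := neg_abs_le (deriv g s0 / g s0).re
    have h5 := abs_re_le_norm (deriv g s0 / g s0)
    have h6 : 4 * m / (r / 4) = 16 * m / r := by field_simp; ring
    rw [h6] at h2
    linarith
  have hsum : ((L.map (fun ρ => 1 / (s0 - ρ))).sum).re =
      (L.map (fun ρ => (1 / (s0 - ρ)).re)).sum := by
    clear h1 hLne hLz hG hfe hfg hL
    induction L with
    | nil => simp
    | cons ρ L ih => simp only [List.map_cons, List.sum_cons, add_re, ih]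
  have h4 : ∑ ρ ∈ Z, (1 / (s0 - ρ)).re ≤ (L.map (fun ρ => (1 / (s0 - ρ)).re)).sum := by
    rw [Finset.sum_list_map_count]
    have hsub : Z ⊆ L.toFinset := by
      intro ρ hρ
      obtain ⟨hf0, hρr⟩ := hZ ρ hρ
      rw [List.mem_toFinset]
      rw [hfg] at hf0
      rcases mul_eq_zero.1 hf0 with h5 | h5
      · unfold PP at h5
        rw [List.prod_eq_zero_iff, List.mem_map] at h5
        obtain ⟨ρ', hρ', h6⟩ := h5
        rw [sub_eq_zero.1 h6]
        exact hρ'
      · exact absurd h5 (hgne ρ (by rw [mem_closedBall, dist_eq_norm]; exact hρr))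
    have hnn : ∀ ρ ∈ L.toFinset, 0 ≤ (1 / (s0 - ρ)).re := by
      intro ρ hρ
      rw [List.mem_toFinset] at hρ
      exact re_one_div_nonneg (hz ρ (hLz ρ hρ))
    refine (Finset.sum_le_sum_of_subset_of_nonneg hsub (fun ρ hρ _ => hnn ρ hρ)).trans ?_
    refine Finset.sum_le_sum fun ρ hρ => ?_
    have hc : 1 ≤ L.count ρ := by
      rw [List.mem_toFinset] at hρ
      exact List.one_le_count_iff.2 hρ
    have hc' : (1 : ℝ) ≤ L.count ρ := by exact_mod_cast hc
    rw [nsmul_eq_mul]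
    nlinarith [hnn ρ hρ]
  rw [h1, add_re, hsum]
  linarith

end Pool.Agent.Work.MP_b0c12c_nt_helper70
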