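import Pool.Agent.Work.MP_b0c12c_nt_helper70.Bounds

/-!
# Upper bounds for the twisted von Mangoldt series
-/

set_option autoImplicit false

namespace Pool.Agent.Work.MP_b0c12c_nt_helper70

open Complex Filter Topology MeasureTheory Finset Metric
open Pool.Agent.Work.MP_852da8_nt
open scoped ArithmeticFunction.vonMangoldt

/-- twisted von Mangoldt series -/
noncomputable def DD {q : ℕ} (χ : DirichletCharacter ℂ q) (s : ℂ) : ℂ :=
  LSeries ((fun n : ℕ => χ (n : ZMod q)) * (fun n : ℕ => ((Λ n : ℝ) : ℂ))) s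

lemma DD_eq {q : ℕ} [NeZero q] (χ : DirichletCharacter ℂ q) {s : ℂ} (hs : 1 < s.re) :
    DD χ s = -(deriv χ.LFunction s / χ.LFunction s) := by
  unfold DD
  rw [DirichletCharacter.LSeries_twist_vonMangoldt_eq χ hs,
    DirichletCharacter.deriv_LFunction_eq_deriv_LSeries χ hs,
    DirichletCharacter.LFunction_eq_LSeries χ hs, neg_div]

lemma exp_one_lt : Real.exp 1 < 3 := by
  have := Real.exp_one_lt_d9
  linarith

lemma exp4_le : Real.exp 4 ≤ 81 := by
  have h : Real.exp 4 = Real.exp 1 ^ 4 := by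
    rw [← Real.exp_nat_mul]
    norm_num
  rw [h]
  calc Real.exp 1 ^ 4 ≤ 3 ^ 4 := pow_le_pow_left₀ (Real.exp_pos 1).le exp_one_lt.le 4
    _ = 81 := by norm_num

lemma exp8_le : Real.exp 8 ≤ 6561 := by
  have h : Real.exp 8 = Real.exp 1 ^ 8 := by
    rw [← Real.exp_nat_mul]
    norm_num
  rw [h]
  calc Real.exp 1 ^ 8 ≤ 3 ^ 8 := pow_le_pow_left₀ (Real.exp_pos 1).le exp_one_lt.le 8
    _ = 6561 := by norm_num

/-- geometric facts on the disc -/
lemma disc_facts {M T : ℝ} (hM : 4 ≤ M) {s0 s : ℂ} (h1 : 1 + 1 / M ^ 2 ≤ s0.re)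
    (h2 : s0.re ≤ 1 + 1 / M) (h3 : |s0.im| ≤ 2 * T) (hs : s ∈ closedBall s0 (2 / M)) :
    1 - 2 / M ≤ s.re ∧ s.re ≤ 2 ∧ |s.im| ≤ 2 * T + 2 := by
  rw [mem_closedBall, dist_eq_norm] at hs
  have hM0 : 0 < M := by linarith
  have a1 := (abs_re_le_norm (s - s0)).trans hs
  have a2 := (abs_im_le_norm (s - s0)).trans hs
  rw [sub_re, abs_le] at a1
  rw [sub_im, abs_le] at a2
  have e1 : 2 / M = 2 * (1 / M) := by ring
  have e2 : 1 / M ≤ 1 / 4 := one_div_le_one_div_of_le (by norm_num) hM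
  have e3 : 0 < 1 / M ^ 2 := by positivity
  rw [e1] at a1 a2 ⊢
  rw [abs_le] at h3 ⊢
  refine ⟨by linarith [a1.1], by linarith [a1.2], by linarith [a2.1, h3.1], by linarith [a2.2, h3.2]⟩

/-- non-principal characters -/
lemma upN {q : ℕ} [NeZero q] {T : ℝ} (hT : 1 ≤ T) {M : ℝ} (hMd : M = Real.log (q * (T + 2)))
    (hM : 4 ≤ M) (χ : DirichletCharacter ℂ q) (hχ : χ ≠ 1) {s0 : ℂ}
    (h1 : 1 + 1 / M ^ 2 ≤ s0.re) (h2 : s0.re ≤ 1 + 1 / M) (h3 : |s0.im| ≤ 2 * T)
    (Z : Finset ℂ) (hZ : ∀ ρ ∈ Z, χ.LFunction ρ = 0 ∧ ‖ρ - s0‖ ≤ 1 / (2 * M)) :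
    (DD χ s0).re ≤ 80 * M * Real.log M - ∑ ρ ∈ Z, (1 / (s0 - ρ)).re := by
  have hM0 : 0 < M := by linarith
  have hs0 : 1 < s0.re := by
    have : 0 < 1 / M ^ 2 := by positivity
    linarith
  have hlog : 0 < Real.log M := Real.log_pos (by linarith)
  rw [DD_eq χ hs0, neg_re]
  have key := local_lemma (DirichletCharacter.differentiable_LFunction hχ) (s0 := s0)
    (r := 2 / M) (m := 10 * Real.log M) (by positivity) (by positivity) ?_ ?_ ?_ Z ?_
  · refine key.trans (le_of_eq ?_)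
    congr 1
    field_simp
    ring
  · exact DirichletCharacter.LFunction_ne_zero_of_one_le_re χ (Or.inl hχ) hs0.le
  · intro s hs
    obtain ⟨f1, f2, f3⟩ := disc_facts hM h1 h2 h3 hs
    have hM' : 4 ≤ Real.log (q * (T + 2)) := by rw [← hMd]; exact hM
    rw [hMd] at f1
    have u := norm_L_le hT hM' χ hχ f1 f2 f3
    rw [← hMd] at u
    have hs2 : s0.re ≤ 2 := by
      have e2 : 1 / M ≤ 1 / 4 := one_div_le_one_div_of_le (by norm_num) hM
      linarith
    have l := le_norm_L χ hs0 hs2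
    have e1 : Real.exp (10 * Real.log M) = M ^ 10 := by
      rw [mul_comm, Real.exp_mul, Real.exp_log hM0]
      norm_cast
    rw [e1]
    have l2 : 1 / (2 * M ^ 2) ≤ ‖χ.LFunction s0‖ := by
      refine le_trans ?_ l
      have : 1 / (2 * M ^ 2) = (1 / M ^ 2) / 2 := by field_simp
      rw [this]
      linarith
    have hM7 : (4 : ℝ) ^ 7 ≤ M ^ 7 := pow_le_pow_left₀ (by norm_num) hM 7
    calc ‖χ.LFunction s‖ ≤ 4 * Real.exp 4 * M := u
      _ ≤ 4 * 81 * M := by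
          have := exp4_le
          nlinarith
      _ ≤ M ^ 10 * (1 / (2 * M ^ 2)) := by
          have e3 : M ^ 10 * (1 / (2 * M ^ 2)) = M ^ 7 * M / 2 := by field_simp
          rw [e3]
          nlinarith
      _ ≤ M ^ 10 * ‖χ.LFunction s0‖ := mul_le_mul_of_nonneg_left l2 (by positivity)
  · intro s hs
    by_contra hcon
    push Not at hcon
    exact DirichletCharacter.LFunction_ne_zero_of_one_le_re χ (Or.inl hχ)
      (hs0.le.trans hcon.le) hs
  · intro ρ hρ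
    refine ⟨(hZ ρ hρ).1, (hZ ρ hρ).2.trans (le_of_eq ?_)⟩
    field_simp
    norm_num

/-- Riemann zeta -/
lemma upZeta {q : ℕ} [NeZero q] {T : ℝ} (hT : 1 ≤ T) {M : ℝ} (hMd : M = Real.log (q * (T + 2)))
    (hM : 4 ≤ M) {s0 : ℂ}
    (h1 : 1 + 1 / M ^ 2 ≤ s0.re) (h2 : s0.re ≤ 1 + 1 / M) (h3 : |s0.im| ≤ 2 * T) :
    -(logDeriv riemannZeta₁ s0).re ≤ 160 * M * Real.log M := by
  have hM0 : 0 < M := by linarith
  have hs0 : 1 < s0.re := by
    have : 0 < 1 / M ^ 2 := by positivity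
    linarith
  have hlog : 0 < Real.log M := Real.log_pos (by linarith)
  have hne : ∀ s : ℂ, 1 < s.re → riemannZeta₁ s ≠ 0 := by
    intro s hs h0
    have hs1 : s ≠ 1 := by rintro rfl; simp at hs
    have := riemannZeta_ne_zero_of_one_lt_re hs
    rw [riemannZeta_eq_inv_sub_mul hs1, h0, mul_zero] at this
    exact this rfl
  rw [logDeriv_apply]
  have key := local_lemma differentiable_riemannZeta₁ (s0 := s0)
    (r := 2 / M) (m := 20 * Real.log M) (by positivity) (by positivity) (hne s0 hs0) ?_ ?_ ∅ ?_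
  · refine key.trans (le_of_eq ?_)
    rw [Finset.sum_empty, sub_zero]
    field_simp
    ring
  · intro s hs
    obtain ⟨f1, f2, f3⟩ := disc_facts hM h1 h2 h3 hs
    have hM' : 4 ≤ Real.log (q * (T + 2)) := by rw [← hMd]; exact hM
    rw [hMd] at f1
    have u := norm_zeta1_le hT hM' f1 f2 f3
    rw [← hMd] at u
    have e2 : 1 / M ≤ 1 / 4 := one_div_le_one_div_of_le (by norm_num) hM
    have hs2 : s0.re ≤ 2 := by linarith
    have l := le_norm_zeta hs0 hs2
    have hs1 : s0 ≠ 1 := by rintro rfl; simp at hs0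
    have e1 : Real.exp (20 * Real.log M) = M ^ 20 := by
      rw [mul_comm, Real.exp_mul, Real.exp_log hM0]
      norm_cast
    rw [e1]
    have l2 : 1 / (2 * M ^ 2) ≤ ‖riemannZeta s0‖ := by
      refine le_trans ?_ l
      have : 1 / (2 * M ^ 2) = (1 / M ^ 2) / 2 := by field_simp
      rw [this]
      linarith
    have e4 : riemannZeta₁ s0 = (s0 - 1) * riemannZeta s0 := by
      rw [riemannZeta_eq_inv_sub_mul hs1, ← mul_assoc, mul_inv_cancel₀ (sub_ne_zero.2 hs1), one_mul]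
    have e5 : 1 / M ^ 2 ≤ ‖s0 - 1‖ := by
      have := (le_abs_self _).trans (abs_re_le_norm (s0 - 1))
      rw [sub_re, one_re] at this
      linarith
    have e6 : ‖s - 1‖ + 1 ≤ 3 * M ^ 2 * ‖s0 - 1‖ := by
      have e7 : ‖s - 1‖ ≤ ‖s - s0‖ + ‖s0 - 1‖ := by
        have : s - 1 = (s - s0) + (s0 - 1) := by ring
        rw [this]; exact norm_add_le _ _
      rw [mem_closedBall, dist_eq_norm] at hs
      have e8 : 2 / M = 2 * (1 / M) := by ring
      have e9 : 1 ≤ M ^ 2 * ‖s0 - 1‖ := by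
        rw [div_le_iff₀ (by positivity)] at e5
        linarith
      have e10 : ‖s0 - 1‖ * 1 ≤ ‖s0 - 1‖ * (M ^ 2) := by
        refine mul_le_mul_of_nonneg_left ?_ (norm_nonneg _)
        nlinarith
      linarith
    have hM15 : (4 : ℝ) ^ 15 ≤ M ^ 15 := pow_le_pow_left₀ (by norm_num) hM 15
    have hn := norm_nonneg (s0 - 1)
    rw [e4, norm_mul]
    calc ‖riemannZeta₁ s‖ ≤ 8 * Real.exp 8 * M * (‖s - 1‖ + 1) := u
      _ ≤ 8 * 6561 * M * (3 * M ^ 2 * ‖s0 - 1‖) := by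
          have := exp8_le
          refine mul_le_mul ?_ e6 (by positivity) (by positivity)
          nlinarith
      _ = (8 * 6561 * 3 * M ^ 3) * ‖s0 - 1‖ := by ring
      _ ≤ (M ^ 20 * (1 / (2 * M ^ 2))) * ‖s0 - 1‖ := by
          refine mul_le_mul_of_nonneg_right ?_ hn
          have e3 : M ^ 20 * (1 / (2 * M ^ 2)) = M ^ 15 * M ^ 3 / 2 := by field_simp
          rw [e3]
          have : 0 < M ^ 3 := by positivity
          nlinarith
      _ = M ^ 20 * (‖s0 - 1‖ * (1 / (2 * M ^ 2))) := by ring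
      _ ≤ M ^ 20 * (‖s0 - 1‖ * ‖riemannZeta s0‖) := by
          refine mul_le_mul_of_nonneg_left ?_ (by positivity)
          exact mul_le_mul_of_nonneg_left l2 hn
  · intro s hs
    by_contra hcon
    push Not at hcon
    exact hne s (hs0.trans hcon) hs
  · intro ρ hρ
    simp at hρ

lemma prime_factor_bound {p : ℕ} (hp : p.Prime) {s0 : ℂ} (hs0 : 1 < s0.re) :
    (1 - (p : ℂ) ^ (-s0)) ≠ 0 ∧ DifferentiableAt ℂ (fun s : ℂ => 1 - (p : ℂ) ^ (-s)) s0 ∧
    ‖logDeriv (fun s : ℂ => 1 - (p : ℂ) ^ (-s)) s0‖ ≤ Real.log p := by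
  have hp0 : (p : ℂ) ≠ 0 := by exact_mod_cast hp.ne_zero
  have hp2 : (2 : ℝ) ≤ p := by exact_mod_cast hp.two_le
  have hn : ‖(p : ℂ) ^ (-s0)‖ ≤ 1 / 2 := by
    rw [norm_natCast_cpow_of_pos hp.pos, neg_re]
    calc (p : ℝ) ^ (-s0.re) ≤ (p : ℝ) ^ (-1 : ℝ) :=
          Real.rpow_le_rpow_of_exponent_le (by linarith) (by linarith)
      _ = 1 / p := by rw [Real.rpow_neg_one, one_div]
      _ ≤ 1 / 2 := one_div_le_one_div_of_le (by norm_num) hp2
  have hge : 1 / 2 ≤ ‖1 - (p : ℂ) ^ (-s0)‖ := by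
    have := norm_sub_norm_le (1 : ℂ) ((p : ℂ) ^ (-s0))
    rw [norm_one] at this
    linarith
  have hder : HasDerivAt (fun s : ℂ => 1 - (p : ℂ) ^ (-s))
      (-((p : ℂ) ^ (-s0) * Complex.log p * (-1))) s0 := by
    have h1 : HasDerivAt (fun s : ℂ => (p : ℂ) ^ (-s)) ((p : ℂ) ^ (-s0) * Complex.log p * (-1)) s0 :=
      (hasDerivAt_neg s0).const_cpow (Or.inl hp0)
    exact h1.const_sub 1
  refine ⟨?_, hder.differentiableAt, ?_⟩
  · intro h
    rw [h, norm_zero] at hge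
    linarith
  · rw [logDeriv_apply, hder.deriv, norm_div, norm_neg, norm_mul, norm_mul, norm_neg, norm_one,
      mul_one, ← Complex.natCast_log, Complex.norm_real, Real.norm_eq_abs,
      abs_of_nonneg (Real.log_nonneg (by linarith)), div_le_iff₀ (by linarith)]
    have := Real.log_nonneg (by linarith : (1 : ℝ) ≤ p)
    nlinarith

/-- principal characters -/
lemma upP {q : ℕ} [NeZero q] {T : ℝ} (hT : 1 ≤ T) {M : ℝ} (hMd : M = Real.log (q * (T + 2)))
    (hM : 4 ≤ M) {s0 : ℂ}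
    (h1 : 1 + 1 / M ^ 2 ≤ s0.re) (h2 : s0.re ≤ 1 + 1 / M) (h3 : |s0.im| ≤ 2 * T) :
    (DD (1 : DirichletCharacter ℂ q) s0).re ≤ 170 * M * Real.log M + (1 / (s0 - 1)).re := by
  have hM0 : 0 < M := by linarith
  have hs0 : 1 < s0.re := by
    have : 0 < 1 / M ^ 2 := by positivity
    linarith
  have hs1 : s0 ≠ 1 := by rintro rfl; simp at hs0
  have hs1' : s0 - 1 ≠ 0 := sub_ne_zero.2 hs1
  have hlog : 1 ≤ Real.log M := by
    rw [Real.le_log_iff_exp_le hM0]
    linarith [exp_one_lt]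
  have hz1 : riemannZeta₁ s0 ≠ 0 := by
    intro h0
    have := riemannZeta_ne_zero_of_one_lt_re hs0
    rw [riemannZeta_eq_inv_sub_mul hs1, h0, mul_zero] at this
    exact this rfl
  have hev : (1 : DirichletCharacter ℂ q).LFunction =ᶠ[𝓝 s0]
      fun s => (∏ p ∈ q.primeFactors, (1 - (p : ℂ) ^ (-s))) * ((s - 1)⁻¹ * riemannZeta₁ s) := by
    filter_upwards [isOpen_ne.mem_nhds hs1] with s hs
    have h4 := DirichletCharacter.LFunctionTrivChar_eq_mul_riemannZeta (N := q) hs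
    rw [riemannZeta_eq_inv_sub_mul hs] at h4
    exact h4
  have hpf : ∀ p ∈ q.primeFactors, (1 - (p : ℂ) ^ (-s0)) ≠ 0 ∧
      DifferentiableAt ℂ (fun s : ℂ => 1 - (p : ℂ) ^ (-s)) s0 ∧
      ‖logDeriv (fun s : ℂ => 1 - (p : ℂ) ^ (-s)) s0‖ ≤ Real.log p := fun p hp =>
    prime_factor_bound (Nat.prime_of_mem_primeFactors hp) hs0
  have hld : logDeriv (1 : DirichletCharacter ℂ q).LFunction s0 =
      ∑ p ∈ q.primeFactors, logDeriv (fun s : ℂ => 1 - (p : ℂ) ^ (-s)) s0 +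
        (-(1 / (s0 - 1)) + logDeriv riemannZeta₁ s0) := by
    rw [(logDeriv_congr_nhds hev).self_of_nhds]
    have d1 : DifferentiableAt ℂ (fun s : ℂ => ∏ p ∈ q.primeFactors, (1 - (p : ℂ) ^ (-s))) s0 := by
      refine DifferentiableAt.fun_finsetProd fun p hp => (hpf p hp).2.1
    have d2 : HasDerivAt (fun s : ℂ => (s - 1)⁻¹) (-1 / (s0 - 1) ^ 2) s0 :=
      ((hasDerivAt_id s0).sub_const 1).inv hs1'
    have n1 : (∏ p ∈ q.primeFactors, (1 - (p : ℂ) ^ (-s0))) ≠ 0 :=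
      Finset.prod_ne_zero_iff.2 fun p hp => (hpf p hp).1
    rw [logDeriv_mul (f := fun s : ℂ => ∏ p ∈ q.primeFactors, (1 - (p : ℂ) ^ (-s)))
      (g := fun s : ℂ => (s - 1)⁻¹ * riemannZeta₁ s) s0 n1 (mul_ne_zero (inv_ne_zero hs1') hz1) d1
      (d2.differentiableAt.mul (differentiable_riemannZeta₁ s0)),
      logDeriv_mul (f := fun s : ℂ => (s - 1)⁻¹) s0 (inv_ne_zero hs1') hz1 d2.differentiableAt
        (differentiable_riemannZeta₁ s0),
      logDeriv_prod (fun p hp => (hpf p hp).1) (fun p hp => (hpf p hp).2.1)]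
    congr 2
    rw [logDeriv_apply, d2.deriv]
    field_simp
  rw [DD_eq _ hs0, ← logDeriv_apply, hld]
  have hsum : ‖∑ p ∈ q.primeFactors, logDeriv (fun s : ℂ => 1 - (p : ℂ) ^ (-s)) s0‖ ≤ M := by
    refine (norm_sum_le _ _).trans ((Finset.sum_le_sum fun p hp => (hpf p hp).2.2).trans ?_)
    rw [← Real.log_prod (fun p hp => by
      exact_mod_cast (Nat.prime_of_mem_primeFactors hp).ne_zero)]
    have hq : 0 < q := Nat.pos_of_ne_zero (NeZero.ne q)
    have hle : ∏ p ∈ q.primeFactors, p ≤ q := Nat.le_of_dvd hq (Nat.prod_primeFactors_dvd q)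
    have hle' : (∏ p ∈ q.primeFactors, (p : ℝ)) ≤ q := by
      have := (Nat.cast_le (α := ℝ)).2 hle
      rwa [Nat.cast_prod] at this
    have hpos : 0 < ∏ p ∈ q.primeFactors, (p : ℝ) := Finset.prod_pos fun p hp => by
      exact_mod_cast (Nat.prime_of_mem_primeFactors hp).pos
    rw [hMd]
    apply Real.log_le_log hpos
    have : (0 : ℝ) < q := by exact_mod_cast hq
    nlinarith
  have hz := upZeta hT hMd hM h1 h2 h3
  have hre := (abs_le.1 ((abs_re_le_norm _).trans hsum)).1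
  rw [neg_re, add_re, add_re, neg_re]
  have hMM : M ≤ M * Real.log M := by nlinarith
  linarith

end Pool.Agent.Work.MP_b0c12c_nt_helper70
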